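import Pool.Agent.N186.ND.Log
import Pool.Agent.N973.ND.Stm
import Pool.Agent.Y405.CQ.MER
import Pool.Agent.Helper601.Mertens

/-!
# The logarithmic average of the sign of `kd`
-/

set_option autoImplicit false

open scoped Classical

open Finset Filter Topology

namespace Pool.Agent.N186.ND

open Pool.Agent.N973.ND (Pr m7 ty kd SS SA Cl)

/-- the additive function on the primes -/
def gg (p : ℕ) : ℤ := if ty p = 3 then 1 else if ty p = 1 then -1 else 0

/-- the primes prime to `14` up to `y` -/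
noncomputable def PP (y : ℕ) : Finset ℕ := (range (y + 1)).filter Pr

lemma gg_cases (p : ℕ) : gg p = 0 ∨ gg p = 1 ∨ gg p = -1 := by
  unfold gg
  split_ifs <;> simp

lemma kd_eq (S : Finset ℕ) : kd S = ∑ p ∈ S, gg p := by
  unfold kd gg
  rw [card_filter, card_filter]
  push_cast
  rw [← sum_sub_distrib]
  refine sum_congr rfl fun p _ => ?_
  by_cases h3 : ty p = 3
  · simp [h3]
  · by_cases h1 : ty p = 1
    · simp [h1]
    · simp [h1, h3]

lemma ty_mod (p : ℕ) : ty (p % 56) = ty p := by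
  have h7 : p % 56 % 7 = p % 7 := Nat.mod_mod_of_dvd p (by norm_num)
  have h4 : p % 56 % 4 = p % 4 := Nat.mod_mod_of_dvd p (by norm_num)
  unfold ty m7
  rw [h7, h4]

lemma gg_mod (p : ℕ) : gg (p % 56) = gg p := by
  unfold gg
  rw [ty_mod]

/-- the reduced classes -/
def Rd : Finset ℕ := (range 56).filter fun a => Nat.Coprime a 56

lemma Pr_mod (p : ℕ) (hp : Pr p) : p % 56 ∈ Rd := by
  unfold Rd
  rw [mem_filter, mem_range]
  refine ⟨Nat.mod_lt _ (by norm_num), ?_⟩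
  rw [Nat.coprime_iff_gcd_eq_one, ← Nat.gcd_rec, Nat.gcd_comm]
  have : Nat.Coprime p (2 ^ 3 * 7) := by
    refine Nat.Coprime.mul_right (Nat.Coprime.pow_right _ ?_) ?_
    · exact (Nat.coprime_primes hp.1 Nat.prime_two).2 hp.2.1
    · exact (Nat.coprime_primes hp.1 (by norm_num)).2 hp.2.2
  exact this

lemma Rd_Pr (p a : ℕ) (ha : a ∈ Rd) (hp : p.Prime) (h : p % 56 = a % 56) : Pr p := by
  unfold Rd at ha
  rw [mem_filter, mem_range] at ha
  rw [Nat.mod_eq_of_lt ha.1] at h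
  refine ⟨hp, ?_, ?_⟩
  · rintro rfl
    rw [← h] at ha
    exact absurd ha.2 (by decide)
  · rintro rfl
    rw [← h] at ha
    exact absurd ha.2 (by decide)

lemma mertens_mod (h : ℕ → ℝ) (hm : ∀ p, h (p % 56) = h p) : ∃ C : ℝ, 0 ≤ C ∧ ∀ y : ℕ, 3 ≤ y →
    |∑ p ∈ PP y, h p / p - (1 / 24) * (∑ a ∈ Rd, h a) * Real.log (Real.log y)| ≤ C := by
  have hM := Pool.Agent.Y405.CQ.t_MER
  unfold Pool.Agent.Y703.CQ.S_MER at hM
  have hM' : ∀ a : ℕ, ∃ C : ℝ, a ∈ Rd → ∀ y : ℕ, 3 ≤ y →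
      |∑ p ∈ (range (y + 1)).filter (fun p => p.Prime ∧ p % 56 = a % 56), (1 : ℝ) / p -
        1 / 24 * Real.log (Real.log y)| ≤ C := by
    intro a
    by_cases ha : a ∈ Rd
    · obtain ⟨C, hC⟩ := hM a (mem_filter.1 ha).2
      exact ⟨C, fun _ => hC⟩
    · exact ⟨0, fun h' => absurd h' ha⟩
  choose C hC using hM'
  refine ⟨|∑ a ∈ Rd, |h a| * C a|, abs_nonneg _, fun y hy => ?_⟩
  have e1 : ∑ p ∈ PP y, h p / p = ∑ a ∈ Rd, h a *
      ∑ p ∈ (range (y + 1)).filter (fun p => p.Prime ∧ p % 56 = a % 56), (1 : ℝ) / p := by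
    unfold PP
    rw [← sum_fiberwise_of_maps_to (s := (range (y + 1)).filter Pr) (t := Rd)
      (g := fun p => p % 56) (fun p hp => Pr_mod p (mem_filter.1 hp).2)]
    refine sum_congr rfl fun a ha => ?_
    rw [mul_sum]
    have ha56 : a % 56 = a := Nat.mod_eq_of_lt (mem_range.1 (mem_filter.1 ha).1)
    refine sum_congr ?_ ?_
    · ext p
      simp only [mem_filter, mem_range]
      constructor
      · rintro ⟨⟨h1, h2⟩, h3⟩
        exact ⟨h1, h2.1, by rw [h3, ha56]⟩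
      · rintro ⟨h1, h2, h3⟩
        exact ⟨⟨h1, Rd_Pr p a ha h2 h3⟩, by rw [h3, ha56]⟩
    · intro p hp
      rw [mem_filter] at hp
      have : h p = h a := by
        rw [← hm p, hp.2.2, ha56]
      rw [this]
      ring
  rw [e1]
  have e2 : (∑ a ∈ Rd, h a *
      ∑ p ∈ (range (y + 1)).filter (fun p => p.Prime ∧ p % 56 = a % 56), (1 : ℝ) / p) -
      (1 / 24) * (∑ a ∈ Rd, h a) * Real.log (Real.log y) = ∑ a ∈ Rd, h a *
      (∑ p ∈ (range (y + 1)).filter (fun p => p.Prime ∧ p % 56 = a % 56), (1 : ℝ) / p -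
        1 / 24 * Real.log (Real.log y)) := by
    rw [mul_assoc, sum_mul, mul_sum, ← sum_sub_distrib]
    refine sum_congr rfl fun a _ => ?_
    ring
  rw [e2]
  refine (abs_sum_le_sum_abs _ _).trans (le_trans ?_ (le_abs_self _))
  refine sum_le_sum fun a ha => ?_
  rw [abs_mul]
  exact mul_le_mul_of_nonneg_left (hC a ha y hy) (abs_nonneg _)

lemma mer_one : ∃ C : ℝ, 0 ≤ C ∧ ∀ y : ℕ, 3 ≤ y →
    |∑ p ∈ PP y, 1 / (p : ℝ) - Real.log (Real.log y)| ≤ C := by
  obtain ⟨C, h0, hC⟩ := mertens_mod (fun _ => 1) (fun _ => rfl)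
  refine ⟨C, h0, fun y hy => ?_⟩
  have h := hC y hy
  have e : ∑ a ∈ Rd, (1 : ℝ) = 24 := by
    rw [sum_const, nsmul_eq_mul, mul_one]
    have : Rd.card = 24 := by decide +kernel
    rw [this]
    norm_num
  rw [e] at h
  norm_num at h
  simpa using h

lemma mer_gg : ∃ C : ℝ, 0 ≤ C ∧ ∀ y : ℕ, 3 ≤ y → |∑ p ∈ PP y, (gg p : ℝ) / p| ≤ C := by
  obtain ⟨C, h0, hC⟩ := mertens_mod (fun p => (gg p : ℝ)) (fun p => by rw [gg_mod])
  refine ⟨C, h0, fun y hy => ?_⟩
  have h := hC y hy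
  have e : ∑ a ∈ Rd, (gg a : ℝ) = 0 := by
    have : ∑ a ∈ Rd, gg a = 0 := by decide +kernel
    exact_mod_cast this
  rw [e] at h
  simpa using h

lemma mer_ne : ∃ C : ℝ, 0 ≤ C ∧ ∀ y : ℕ, 3 ≤ y →
    1 / 2 * Real.log (Real.log y) - C ≤ ∑ p ∈ PP y with gg p ≠ 0, 1 / (p : ℝ) := by
  obtain ⟨C, h0, hC⟩ := mertens_mod (fun p => if gg p ≠ 0 then 1 else 0)
    (fun p => by rw [gg_mod])
  refine ⟨C, h0, fun y hy => ?_⟩
  have h := hC y hy
  have e : ∑ a ∈ Rd, (if gg a ≠ 0 then (1 : ℝ) else 0) = 12 := by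
    have : ∑ a ∈ Rd, (if gg a ≠ 0 then 1 else 0) = 12 := by decide +kernel
    exact_mod_cast this
  rw [e] at h
  have e2 : ∑ p ∈ PP y with gg p ≠ 0, 1 / (p : ℝ) =
      ∑ p ∈ PP y, (if gg p ≠ 0 then (1 : ℝ) else 0) / p := by
    rw [sum_filter]
    refine sum_congr rfl fun p _ => ?_
    split_ifs <;> simp
  rw [e2]
  have := (abs_le.1 h).1
  linarith

lemma PP_prime (y p : ℕ) (h : p ∈ PP y) : p.Prime := (mem_filter.1 h).2.1

lemma sum_sq_le (y : ℕ) : ∑ p ∈ PP y, (1 / (p : ℝ)) ^ 2 ≤ 2 := by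
  have h1 : ∑ p ∈ PP y, (1 / (p : ℝ)) ^ 2 ≤ ∑ p ∈ Ioc 1 (y + 1), ((p : ℝ) ^ 2)⁻¹ := by
    calc ∑ p ∈ PP y, (1 / (p : ℝ)) ^ 2 = ∑ p ∈ PP y, ((p : ℝ) ^ 2)⁻¹ :=
          sum_congr rfl fun p _ => by rw [div_pow, one_pow, one_div]
      _ ≤ _ := by
          refine sum_le_sum_of_subset_of_nonneg ?_ fun _ _ _ => by positivity
          intro p hp
          have h2 := (PP_prime y p hp).two_le
          have h3 := mem_range.1 (mem_filter.1 hp).1
          rw [mem_Ioc]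
          omega
  have h2 := sum_Ioc_inv_sq_le_sub (α := ℝ) (k := 1) (n := y + 1) one_ne_zero (by omega)
  have h3 : (0 : ℝ) ≤ ((y + 1 : ℕ) : ℝ)⁻¹ := by positivity
  push_cast at h2 h3
  norm_num at h2
  linarith

lemma NN_le (y : ℕ) : NN (PP y) ≤ Real.exp (∑ p ∈ PP y, 1 / (p : ℝ)) := by
  rw [NN_eq]
  exact Real.prod_one_add_le_exp_sum _ fun p => by positivity

/-- the logarithmic average of the sign -/
noncomputable def LL (c : ℤ) (X : ℕ) : ℝ :=
  ∑ S ∈ (PP X).powerset.filter (fun S => ∏ p ∈ S, p ≤ X), wt S * sgz c (∑ p ∈ S, gg p)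

theorem LL_small (c : ℤ) (ε : ℝ) (hε : 0 < ε) : ∃ X₀ : ℕ, ∀ X : ℕ, X₀ ≤ X →
    |LL c X| ≤ ε * Real.log X := by
  obtain ⟨C1, hC10, hC1⟩ := mer_one
  obtain ⟨C2, hC20, hC2⟩ := mer_gg
  obtain ⟨C3, hC30, hC3⟩ := mer_ne
  obtain ⟨C4, hC4⟩ := Pool.Agent.Helper601.Mertens.mertens_log
  set e1 : ℝ := Real.exp C1 with he1
  have he10 : 0 < e1 := Real.exp_pos _
  set δ : ℝ := min (1 / 2) (ε / (2 * (1 + e1))) with hδ
  have hδ0 : 0 < δ := lt_min (by norm_num) (by positivity)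
  have hδ1 : δ ≤ 1 / 2 := min_le_left _ _
  have hδ2 : δ * (1 + e1) ≤ ε / 2 := by
    have h1 : δ ≤ ε / (2 * (1 + e1)) := min_le_right _ _
    rw [le_div_iff₀ (by positivity)] at h1
    linarith
  set K : ℝ := |(c : ℝ)| + 1 + C2 + 4 * 2 with hK
  set D : ℝ := Real.log (2 / δ ^ 2) + 2 * C1 with hD
  have hlog : Tendsto (fun X : ℕ => Real.log (X : ℝ)) atTop atTop :=
    Real.tendsto_log_atTop.comp tendsto_natCast_atTop_atTop
  have hLt : Tendsto (fun X : ℕ => 1 / 2 * Real.log (δ ^ 2 / 2 * Real.log (X : ℝ)) - C3) atTop atTop := by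
    refine tendsto_atTop_add_const_right _ _ ?_
    refine Tendsto.const_mul_atTop (by norm_num) ?_
    exact Real.tendsto_log_atTop.comp (hlog.const_mul_atTop (by positivity))
  have hsm : Tendsto (fun X : ℕ => 1 / Real.log (X : ℝ) + e1 * (4 * (K + D) /
      √(1 / 2 * Real.log (δ ^ 2 / 2 * Real.log (X : ℝ)) - C3) + (|C4| / δ) / Real.log (X : ℝ)))
      atTop (𝓝 (0 + e1 * (0 + 0))) := by
    refine Tendsto.add (tendsto_const_nhds.div_atTop hlog) (Tendsto.const_mul _ (Tendsto.add ?_ ?_))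
    · exact tendsto_const_nhds.div_atTop (Real.tendsto_sqrt_atTop.comp hLt)
    · exact tendsto_const_nhds.div_atTop hlog
  rw [add_zero, mul_zero, add_zero] at hsm
  have hpow : Tendsto (fun X : ℕ => ((X : ℝ) ^ (δ ^ 2))) atTop atTop :=
    (tendsto_rpow_atTop (by positivity)).comp tendsto_natCast_atTop_atTop
  have hev := (hsm.eventually_le_const (half_pos hε)).and ((hLt.eventually_gt_atTop 0).and
    ((hpow.eventually_ge_atTop 3).and ((hlog.eventually_ge_atTop (2 * Real.log 2 / δ ^ 2)).and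
      (eventually_ge_atTop 3))))
  obtain ⟨X₀, hX₀⟩ := eventually_atTop.1 hev
  refine ⟨X₀, fun X hX => ?_⟩
  obtain ⟨h1, h2, h3, h4, h5⟩ := hX₀ X hX
  have hX1 : (1 : ℝ) < X := by
    have : (3 : ℝ) ≤ X := by exact_mod_cast h5
    linarith
  have hX0 : (0 : ℝ) < X := by linarith
  have hlX : 0 < Real.log X := Real.log_pos hX1
  set y : ℕ := ⌊(X : ℝ) ^ (δ ^ 2)⌋₊ with hy
  have hy3 : 3 ≤ y := Nat.le_floor (by exact_mod_cast h3)
  have hyle : (y : ℝ) ≤ (X : ℝ) ^ (δ ^ 2) := Nat.floor_le (by positivity)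
  have hylt : (X : ℝ) ^ (δ ^ 2) < y + 1 := Nat.lt_floor_add_one _
  have hy0 : (0 : ℝ) < y := by
    have : (3 : ℝ) ≤ y := by exact_mod_cast hy3
    linarith
  have hyX : y ≤ X := by
    have hδs : δ ^ 2 ≤ 1 := by nlinarith
    have : (y : ℝ) ≤ X := hyle.trans (by
      calc (X : ℝ) ^ (δ ^ 2) ≤ (X : ℝ) ^ (1 : ℝ) := Real.rpow_le_rpow_of_exponent_le hX1.le hδs
        _ = X := Real.rpow_one _)
    exact_mod_cast this
  have hly1 : Real.log y ≤ δ ^ 2 * Real.log X := by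
    rw [← Real.log_rpow hX0]
    exact Real.log_le_log hy0 hyle
  have hly2 : δ ^ 2 / 2 * Real.log X ≤ Real.log y := by
    have g1 : (X : ℝ) ^ (δ ^ 2) / 2 ≤ y := by linarith
    have g2 : Real.log ((X : ℝ) ^ (δ ^ 2) / 2) ≤ Real.log y := Real.log_le_log (by positivity) g1
    rw [Real.log_div (by positivity) (by norm_num), Real.log_rpow hX0] at g2
    rw [div_le_iff₀ (by positivity)] at h4
    nlinarith
  have hly0 : 0 < Real.log y := lt_of_lt_of_le (by positivity) hly2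
  set Z : ℝ := (X : ℝ) ^ δ with hZ
  have hZ1 : 1 < Z := Real.one_lt_rpow hX1 hδ0
  have hlZ : Real.log Z = δ * Real.log X := Real.log_rpow hX0 _
  have hsub : PP y ⊆ PP X := by
    unfold PP
    intro p hp
    rw [mem_filter, mem_range] at hp ⊢
    exact ⟨by omega, hp.2⟩
  have hun : PP y ∪ (PP X \ PP y) = PP X := union_sdiff_of_subset hsub
  set L : ℝ := 1 / 2 * Real.log (δ ^ 2 / 2 * Real.log (X : ℝ)) - C3 with hL
  have hLle : L ≤ ∑ p ∈ PP y with gg p ≠ 0, 1 / (p : ℝ) := by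
    refine le_trans ?_ (hC3 y hy3)
    have : Real.log (δ ^ 2 / 2 * Real.log (X : ℝ)) ≤ Real.log (Real.log y) :=
      Real.log_le_log (by positivity) hly2
    rw [hL]
    linarith
  have hE : ∑ p ∈ PP y, Real.log p / p ≤ Real.log y + |C4| := by
    have g1 := (abs_le.1 (hC4 y (by omega))).2
    have g2 : ∑ p ∈ PP y, Real.log p / p ≤ ∑ p ∈ (Finset.Icc 1 y).filter Nat.Prime, Real.log p / p := by
      refine sum_le_sum_of_subset_of_nonneg ?_ fun p _ _ =>
        div_nonneg (Real.log_natCast_nonneg p) (Nat.cast_nonneg p)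
      intro p hp
      have g3 := (PP_prime y p hp)
      have g4 := mem_range.1 (mem_filter.1 hp).1
      rw [mem_filter, mem_Icc]
      exact ⟨⟨g3.one_lt.le, by omega⟩, g3⟩
    have := le_abs_self C4
    linarith
  have hDle : ∑ q ∈ PP X \ PP y, 1 / (q : ℝ) ≤ D := by
    have g1 := (abs_le.1 (hC1 X h5)).2
    have g2 := (abs_le.1 (hC1 y hy3)).1
    have g3 : ∑ q ∈ PP X \ PP y, 1 / (q : ℝ) = ∑ q ∈ PP X, 1 / (q : ℝ) - ∑ q ∈ PP y, 1 / (q : ℝ) := by
      rw [eq_sub_iff_add_eq, sum_sdiff hsub]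
    have g4 : Real.log (δ ^ 2 / 2 * Real.log X) ≤ Real.log (Real.log y) :=
      Real.log_le_log (by positivity) hly2
    rw [Real.log_mul (by positivity) (by positivity)] at g4
    have g5 : Real.log (2 / δ ^ 2) = - Real.log (δ ^ 2 / 2) := by
      rw [← Real.log_inv]
      congr 1
      field_simp
    rw [g3, hD, g5]
    linarith
  have hmain := main_ineq (PP y) (PP X \ PP y) disjoint_sdiff
    (fun p hp => PP_prime X p (by rw [hun] at hp; exact hp)) gg gg_cases c X (by omega) Z hZ1 L C2 2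
    (Real.log y + |C4|) D h2 hLle (hC2 y hy3) (sum_sq_le y) hE hDle
  rw [hun] at hmain
  have hNN : NN (PP X) ≤ e1 * Real.log X := by
    refine (NN_le X).trans ?_
    have g1 := (abs_le.1 (hC1 X h5)).2
    have g2 : Real.log (Real.log X) + C1 = C1 + Real.log (Real.log X) := add_comm _ _
    calc Real.exp (∑ p ∈ PP X, 1 / (p : ℝ)) ≤ Real.exp (C1 + Real.log (Real.log X)) :=
          Real.exp_le_exp.2 (by linarith)
      _ = e1 * Real.log X := by rw [Real.exp_add, Real.exp_log hlX]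
  have hD0 : 0 ≤ D := by
    have : 0 ≤ Real.log (2 / δ ^ 2) := Real.log_nonneg (by
      rw [le_div_iff₀ (by positivity)]
      nlinarith)
    rw [hD]
    linarith
  have hK0 : 0 ≤ K := by
    have := abs_nonneg (c : ℝ)
    rw [hK]
    linarith
  have hbr0 : 0 ≤ 4 * (|(c : ℝ)| + 1 + C2 + 4 * 2 + D) / √L + (Real.log y + |C4|) / Real.log Z := by
    have : 0 < Real.log Z := Real.log_pos hZ1
    have := abs_nonneg (c : ℝ)
    have := abs_nonneg C4
    positivity
  have hfrac : (Real.log y + |C4|) / Real.log Z ≤ δ + (|C4| / δ) / Real.log X := by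
    rw [hlZ, div_le_iff₀ (by positivity)]
    have : (δ + (|C4| / δ) / Real.log X) * (δ * Real.log X) = δ ^ 2 * Real.log X + |C4| := by
      field_simp
    rw [this]
    linarith
  unfold LL
  calc _ ≤ 1 + Real.log Z + NN (PP X) * (4 * (|(c : ℝ)| + 1 + C2 + 4 * 2 + D) / √L +
        (Real.log y + |C4|) / Real.log Z) := hmain
    _ ≤ 1 + δ * Real.log X + (e1 * Real.log X) * (4 * (K + D) / √L +
        (δ + (|C4| / δ) / Real.log X)) := by
        rw [hlZ] at hfrac hbr0 ⊢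
        have g1 := mul_le_mul hNN (le_refl (4 * (|(c : ℝ)| + 1 + C2 + 4 * 2 + D) / √L +
          (Real.log y + |C4|) / (δ * Real.log X))) hbr0 (by positivity)
        have g2 : e1 * Real.log X * (4 * (|(c : ℝ)| + 1 + C2 + 4 * 2 + D) / √L +
          (Real.log y + |C4|) / (δ * Real.log X)) ≤ (e1 * Real.log X) * (4 * (K + D) / √L +
          (δ + (|C4| / δ) / Real.log X)) := by
          refine mul_le_mul_of_nonneg_left ?_ (by positivity)
          rw [hK]
          linarith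
        linarith
    _ = (δ * (1 + e1)) * Real.log X + (1 / Real.log X + e1 * (4 * (K + D) / √L +
        (|C4| / δ) / Real.log X)) * Real.log X := by
        field_simp
        ring
    _ ≤ ε / 2 * Real.log X + ε / 2 * Real.log X :=
        add_le_add (mul_le_mul_of_nonneg_right hδ2 hlX.le) (mul_le_mul_of_nonneg_right h1 hlX.le)
    _ = ε * Real.log X := by ring

end Pool.Agent.N186.ND
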