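import Mathlib

/-!
# The sign of a random signed sum: Fourier bound

For a finite set `P` of primes and signs `g p ∈ {-1, 0, 1}` the weighted sum of the signs of
`∑_{p ∈ A} g p - c` over the subsets `A` of `P` (weight `1 / ∏ A`) is small compared with the sum of the
weights if `∑ g p / p` is bounded and the sum of `1 / p` over `g p ≠ 0` is large.
-/

set_option autoImplicit false

open Finset MeasureTheory

namespace Pool.Agent.N186.ND

/-- the kernel -/
noncomputable def KK (n : ℤ) (θ : ℝ) : ℝ := Real.sin ((n + 1 / 2) * θ) / Real.sin (θ / 2)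

/-- the sign -/
noncomputable def sgz (c k : ℤ) : ℝ := if c ≤ k then 1 else -1

lemma KK_step (n : ℤ) (θ : ℝ) (h : Real.sin (θ / 2) ≠ 0) :
    KK (n + 1) θ = KK n θ + 2 * Real.cos (((n : ℝ) + 1) * θ) := by
  unfold KK
  have e1 : (((n + 1 : ℤ) : ℝ) + 1 / 2) * θ = ((n : ℝ) + 1) * θ + θ / 2 := by push_cast; ring
  have e2 : ((n : ℝ) + 1 / 2) * θ = ((n : ℝ) + 1) * θ - θ / 2 := by ring
  rw [e1, e2, Real.sin_add, Real.sin_sub]
  field_simp
  ring

lemma sin_half_ne (θ : ℝ) (h : θ ∈ Set.Ioc (-Real.pi) Real.pi) (h0 : θ ≠ 0) :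
    Real.sin (θ / 2) ≠ 0 := by
  intro h1
  rw [Real.sin_eq_zero_iff_of_lt_of_lt] at h1
  · apply h0; linarith
  · have := h.1; have := Real.pi_pos; linarith
  · have := h.2; have := Real.pi_pos; linarith

lemma ae_ne : ∀ᵐ θ : ℝ, θ ∈ Set.uIoc (-Real.pi) Real.pi → Real.sin (θ / 2) ≠ 0 := by
  have h : ∀ᵐ θ : ℝ, θ ≠ 0 := by
    rw [ae_iff]
    simp
  filter_upwards [h] with θ hθ h2
  rw [Set.uIoc_of_le (by linarith [Real.pi_pos])] at h2
  exact sin_half_ne θ h2 hθ

lemma int_cos (n : ℤ) : ∫ θ in (-Real.pi)..Real.pi, 2 * Real.cos (((n : ℝ) + 1) * θ) =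
    if n = -1 then 4 * Real.pi else 0 := by
  split_ifs with h
  · subst h
    norm_num
    ring
  · have h1 : ((n : ℝ) + 1) ≠ 0 := by
      intro h2
      apply h
      have : ((n + 1 : ℤ) : ℝ) = 0 := by push_cast; exact h2
      have := Int.cast_eq_zero.1 this
      omega
    rw [intervalIntegral.integral_const_mul, intervalIntegral.integral_comp_mul_left
      (fun x => Real.cos x) h1, integral_cos]
    have e1 : Real.sin (((n : ℝ) + 1) * Real.pi) = 0 := by
      have := Real.sin_int_mul_pi (n + 1)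
      push_cast at this
      exact this
    have e2 : Real.sin (((n : ℝ) + 1) * -Real.pi) = 0 := by
      rw [mul_neg, Real.sin_neg, e1, neg_zero]
    rw [e1, e2]
    simp

lemma cos_ii (n : ℤ) : IntervalIntegrable (fun θ : ℝ => 2 * Real.cos (((n : ℝ) + 1) * θ)) volume
    (-Real.pi) Real.pi := by
  apply Continuous.intervalIntegrable
  fun_prop

lemma KK_succ (n : ℤ) (h : IntervalIntegrable (KK n) volume (-Real.pi) Real.pi) :
    IntervalIntegrable (KK (n + 1)) volume (-Real.pi) Real.pi ∧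
    ∫ θ in (-Real.pi)..Real.pi, KK (n + 1) θ = (∫ θ in (-Real.pi)..Real.pi, KK n θ) +
      if n = -1 then 4 * Real.pi else 0 := by
  have h1 : ∀ᵐ θ : ℝ, θ ∈ Set.uIoc (-Real.pi) Real.pi →
      KK n θ + 2 * Real.cos (((n : ℝ) + 1) * θ) = KK (n + 1) θ := by
    filter_upwards [ae_ne] with θ hθ h2
    exact (KK_step n θ (hθ h2)).symm
  constructor
  · refine (h.add (cos_ii n)).congr_ae ?_
    exact (ae_restrict_iff' measurableSet_uIoc).2 h1
  · rw [← intervalIntegral.integral_congr_ae h1, intervalIntegral.integral_add h (cos_ii n),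
      int_cos]

lemma KK_pred (n : ℤ) (h : IntervalIntegrable (KK (n + 1)) volume (-Real.pi) Real.pi) :
    IntervalIntegrable (KK n) volume (-Real.pi) Real.pi := by
  have h1 : ∀ᵐ θ : ℝ, θ ∈ Set.uIoc (-Real.pi) Real.pi →
      KK (n + 1) θ - 2 * Real.cos (((n : ℝ) + 1) * θ) = KK n θ := by
    filter_upwards [ae_ne] with θ hθ h2
    rw [KK_step n θ (hθ h2)]
    ring
  refine (h.sub (cos_ii n)).congr_ae ?_
  exact (ae_restrict_iff' measurableSet_uIoc).2 h1

lemma KK_zero : IntervalIntegrable (KK 0) volume (-Real.pi) Real.pi ∧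
    ∫ θ in (-Real.pi)..Real.pi, KK 0 θ = 2 * Real.pi := by
  have h1 : ∀ᵐ θ : ℝ, θ ∈ Set.uIoc (-Real.pi) Real.pi → (1 : ℝ) = KK 0 θ := by
    filter_upwards [ae_ne] with θ hθ h2
    unfold KK
    have : (((0 : ℤ) : ℝ) + 1 / 2) * θ = θ / 2 := by push_cast; ring
    rw [this, div_self (hθ h2)]
  constructor
  · refine (_root_.intervalIntegrable_const (c := (1:ℝ))).congr_ae ?_
    exact (ae_restrict_iff' measurableSet_uIoc).2 h1
  · rw [← intervalIntegral.integral_congr_ae h1]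
    simp
    ring

lemma KK_int (n : ℤ) : IntervalIntegrable (KK n) volume (-Real.pi) Real.pi ∧
    ∫ θ in (-Real.pi)..Real.pi, KK n θ = 2 * Real.pi * sgz 0 n := by
  induction n using Int.induction_on with
  | zero => simpa [sgz] using KK_zero
  | succ i ih =>
    obtain ⟨h1, h2⟩ := KK_succ i ih.1
    refine ⟨h1, ?_⟩
    rw [h2, ih.2, if_neg (by omega)]
    unfold sgz
    rw [if_pos (by omega), if_pos (by omega)]
    ring
  | pred i ih =>
    have e : (-(i : ℤ) - 1) + 1 = -(i : ℤ) := by ring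
    have h0 := KK_pred (-(i : ℤ) - 1) (by rw [e]; exact ih.1)
    obtain ⟨h1, h2⟩ := KK_succ (-(i : ℤ) - 1) h0
    refine ⟨h0, ?_⟩
    rw [e, ih.2] at h2
    by_cases hi : i = 0
    · subst hi
      rw [if_pos (by norm_num)] at h2
      unfold sgz at h2 ⊢
      rw [if_pos (by norm_num)] at h2
      rw [if_neg (by norm_num)]
      linarith
    · rw [if_neg (by omega)] at h2
      unfold sgz at h2 ⊢
      rw [if_neg (by omega)] at h2
      rw [if_neg (by omega)]
      linarith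

/-- the factor of the generating function -/
noncomputable def zf (x : ℝ) (g : ℤ) (θ : ℝ) : ℂ := 1 + (x : ℂ) * Complex.exp (((g * θ : ℝ) : ℂ) * Complex.I)

/-- the factor with its main phase removed -/
noncomputable def wf (x : ℝ) (g : ℤ) (θ : ℝ) : ℂ :=
  zf x g θ * Complex.exp (((-(g * x * Real.sin θ) : ℝ) : ℂ) * Complex.I)

lemma exp_I (t : ℝ) : Complex.exp ((t : ℂ) * Complex.I) = (Real.cos t : ℂ) + (Real.sin t : ℂ) * Complex.I := by
  rw [Complex.exp_mul_I, Complex.ofReal_cos, Complex.ofReal_sin]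

lemma norm_wf (x : ℝ) (g : ℤ) (θ : ℝ) : ‖wf x g θ‖ = ‖zf x g θ‖ := by
  unfold wf
  rw [norm_mul, Complex.norm_exp_ofReal_mul_I, mul_one]

lemma zf_ge (x : ℝ) (g : ℤ) (θ : ℝ) (h0 : 0 ≤ x) (h1 : x ≤ 1 / 2) : 1 / 2 ≤ ‖zf x g θ‖ := by
  unfold zf
  have h := norm_sub_le_norm_add (1 : ℂ) ((x : ℂ) * Complex.exp (((g * θ : ℝ) : ℂ) * Complex.I))
  rw [norm_mul, Complex.norm_exp_ofReal_mul_I, mul_one, norm_one, Complex.norm_real,
    Real.norm_of_nonneg h0] at h
  linarith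

lemma zf_sq (x : ℝ) (g : ℤ) (θ : ℝ) (hg : g = 1 ∨ g = -1) :
    ‖zf x g θ‖ ^ 2 = (1 + x) ^ 2 - 2 * x * (1 - Real.cos θ) := by
  have h : ‖zf x g θ‖ ^ 2 = (1 + x * Real.cos (g * θ)) ^ 2 + (x * Real.sin (g * θ)) ^ 2 := by
    have e : zf x g θ = ((1 + x * Real.cos (g * θ) : ℝ) : ℂ) +
        ((x * Real.sin (g * θ) : ℝ) : ℂ) * Complex.I := by
      unfold zf
      rw [exp_I]
      generalize Real.cos (g * θ) = c
      generalize Real.sin (g * θ) = d
      push_cast
      ring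
    rw [← Complex.normSq_eq_norm_sq, e, Complex.normSq_add_mul_I]
  rw [h]
  rcases hg with rfl | rfl
  · have := Real.sin_sq_add_cos_sq θ
    push_cast
    rw [one_mul]
    linear_combination x ^ 2 * this
  · have := Real.sin_sq_add_cos_sq θ
    push_cast
    rw [neg_one_mul, Real.cos_neg, Real.sin_neg]
    linear_combination x ^ 2 * this

lemma zf_le (x : ℝ) (g : ℤ) (θ : ℝ) (h0 : 0 ≤ x) (h1 : x ≤ 1 / 2)
    (hg : g = 0 ∨ g = 1 ∨ g = -1) :
    ‖zf x g θ‖ ≤ (1 + x) * Real.exp (-((if g = 0 then 0 else x) * (1 - Real.cos θ) / 4)) := by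
  rcases hg with rfl | hg
  · rw [if_pos rfl]
    unfold zf
    simp only [Int.cast_zero, zero_mul, Complex.ofReal_zero, Complex.exp_zero, mul_one, zero_div, neg_zero,
      Real.exp_zero]
    rw [show (1 : ℂ) + (x : ℂ) = ((1 + x : ℝ) : ℂ) by push_cast; ring, Complex.norm_real,
      Real.norm_of_nonneg (by linarith)]
  · have hg0 : g ≠ 0 := by rcases hg with rfl | rfl <;> norm_num
    rw [if_neg hg0]
    have hc : 0 ≤ 1 - Real.cos θ := by linarith [Real.cos_le_one θ]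
    have h2 := zf_sq x g θ hg
    have h3 : Real.exp (-(x * (1 - Real.cos θ) / 4)) ^ 2 = Real.exp (-(x * (1 - Real.cos θ) / 2)) := by
      rw [← Real.exp_nat_mul]
      congr 1
      push_cast
      ring
    have h4 : 1 - x * (1 - Real.cos θ) / 2 ≤ Real.exp (-(x * (1 - Real.cos θ) / 2)) := by
      have := Real.add_one_le_exp (-(x * (1 - Real.cos θ) / 2))
      linarith
    have h5 : ‖zf x g θ‖ ^ 2 ≤ ((1 + x) * Real.exp (-(x * (1 - Real.cos θ) / 4))) ^ 2 := by
      rw [mul_pow, h3, h2]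
      have h6 : (1 + x) ^ 2 ≤ 4 := by nlinarith
      have h7 : 0 ≤ x * (1 - Real.cos θ) := mul_nonneg h0 hc
      have h8 : (1 + x) ^ 2 * (1 - x * (1 - Real.cos θ) / 2) ≤
          (1 + x) ^ 2 * Real.exp (-(x * (1 - Real.cos θ) / 2)) :=
        mul_le_mul_of_nonneg_left h4 (by positivity)
      nlinarith
    exact le_of_sq_le_sq h5 (by positivity)

lemma wf_im (x : ℝ) (g : ℤ) (θ : ℝ) (h0 : 0 ≤ x) (h1 : x ≤ 1 / 2)
    (hg : g = 0 ∨ g = 1 ∨ g = -1) : |(wf x g θ).im| ≤ 2 * x ^ 2 * |θ| := by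
  have key : ∀ θ : ℝ, |x * Real.sin θ * Real.cos (x * Real.sin θ) -
      (1 + x * Real.cos θ) * Real.sin (x * Real.sin θ)| ≤ 2 * x ^ 2 * |θ| := by
    intro θ
    set t := x * Real.sin θ with ht
    have hs : |Real.sin θ| ≤ |θ| := Real.abs_sin_le_abs
    have hs1 : |Real.sin θ| ≤ 1 := Real.abs_sin_le_one θ
    have ht1 : |t| ≤ x * |θ| := by
      rw [ht, abs_mul, abs_of_nonneg h0]
      exact mul_le_mul_of_nonneg_left hs h0
    have ht2 : |t| ≤ x := by
      rw [ht, abs_mul, abs_of_nonneg h0]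
      nlinarith
    have ht0 : 0 ≤ |t| := abs_nonneg t
    have e : t * Real.cos t - (1 + x * Real.cos θ) * Real.sin t =
        (t * (Real.cos t - 1)) + ((t - Real.sin t) - x * Real.cos θ * Real.sin t) := by ring
    rw [e]
    have b1 : |t * (Real.cos t - 1)| ≤ |t| ^ 3 / 2 := by
      rw [abs_mul]
      have : |Real.cos t - 1| ≤ t ^ 2 / 2 := by
        rw [abs_le]
        constructor
        · have := Real.one_sub_sq_div_two_le_cos (x := t); linarith
        · have := Real.cos_le_one t; nlinarith [sq_nonneg t]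
      calc |t| * |Real.cos t - 1| ≤ |t| * (t ^ 2 / 2) := mul_le_mul_of_nonneg_left this ht0
        _ = |t| ^ 3 / 2 := by rw [← sq_abs]; ring
    have b2 : |t - Real.sin t| ≤ |t| ^ 3 / 4 := by
      have h := Real.sin_bound (x := t) (by linarith)
      have : |t| ≤ 1 := by linarith
      have h2 : |t - Real.sin t| ≤ |t - t ^ 3 / 6 - Real.sin t| + |t ^ 3 / 6| := by
        have : t - Real.sin t = (t - t ^ 3 / 6 - Real.sin t) + t ^ 3 / 6 := by ring
        rw [this]
        exact abs_add_le _ _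
      have h3 : |t - t ^ 3 / 6 - Real.sin t| ≤ |t| ^ 5 / 100 := by
        rw [abs_sub_comm]; exact h
      have h4 : |t ^ 3 / 6| = |t| ^ 3 / 6 := by rw [abs_div, abs_pow]; norm_num
      have h5 : |t| ^ 5 ≤ |t| ^ 3 := pow_le_pow_of_le_one ht0 this (by norm_num)
      rw [h4] at h2
      have h6 : 0 ≤ |t| ^ 3 := by positivity
      linarith
    have b3 : |x * Real.cos θ * Real.sin t| ≤ x * |t| := by
      rw [abs_mul, abs_mul, abs_of_nonneg h0]
      have c1 : |Real.cos θ| ≤ 1 := Real.abs_cos_le_one θ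
      have c2 : |Real.sin t| ≤ |t| := Real.abs_sin_le_abs
      have : x * |Real.cos θ| ≤ x := by nlinarith
      exact mul_le_mul this c2 (abs_nonneg _) h0
    have b4 : |t| ^ 3 ≤ x ^ 2 * |θ| := by
      have c1 : |t| ^ 2 ≤ x := by
        have : |t| ≤ 1 := by linarith
        nlinarith
      calc |t| ^ 3 = |t| ^ 2 * |t| := by ring
        _ ≤ x * (x * |θ|) := mul_le_mul c1 ht1 ht0 h0
        _ = _ := by ring
    have b5 : x * |t| ≤ x ^ 2 * |θ| := by nlinarith
    have b6 : 0 ≤ x ^ 2 * |θ| := by positivity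
    have t1 := abs_add_le (t * (Real.cos t - 1)) ((t - Real.sin t) - x * Real.cos θ * Real.sin t)
    have t2 := abs_sub (t - Real.sin t) (x * Real.cos θ * Real.sin t)
    linarith
  have him : (wf x g θ).im = (1 + x * Real.cos (g * θ)) * Real.sin (-(g * x * Real.sin θ)) +
      x * Real.sin (g * θ) * Real.cos (-(g * x * Real.sin θ)) := by
    unfold wf zf
    rw [exp_I, exp_I]
    generalize Real.cos (g * θ) = c
    generalize Real.sin (g * θ) = d
    generalize Real.cos (-(g * x * Real.sin θ)) = c'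
    generalize Real.sin (-(g * x * Real.sin θ)) = d'
    simp
  rw [him]
  rcases hg with rfl | rfl | rfl
  · simp
    positivity
  · have := key θ
    push_cast
    rw [one_mul, one_mul, Real.sin_neg, Real.cos_neg]
    rw [show (1 + x * Real.cos θ) * -Real.sin (x * Real.sin θ) +
      x * Real.sin θ * Real.cos (x * Real.sin θ) = x * Real.sin θ * Real.cos (x * Real.sin θ) -
      (1 + x * Real.cos θ) * Real.sin (x * Real.sin θ) by ring]
    exact this
  · have := key θ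
    push_cast
    rw [show -((-1 : ℝ) * x * Real.sin θ) = x * Real.sin θ by ring, show (-1 : ℝ) * θ = -θ by ring,
      Real.cos_neg, Real.sin_neg]
    rw [show (1 + x * Real.cos θ) * Real.sin (x * Real.sin θ) +
      x * -Real.sin θ * Real.cos (x * Real.sin θ) = -(x * Real.sin θ * Real.cos (x * Real.sin θ) -
      (1 + x * Real.cos θ) * Real.sin (x * Real.sin θ)) by ring, abs_neg]
    exact this

lemma im_prod (P : Finset ℕ) (w : ℕ → ℂ) (h : ∀ p ∈ P, 1 / 2 ≤ ‖w p‖) :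
    |(∏ p ∈ P, w p).im| ≤ (∏ p ∈ P, ‖w p‖) * ∑ p ∈ P, 2 * |(w p).im| := by
  classical
  induction P using Finset.induction_on with
  | empty => simp
  | insert a P ha ih =>
    rw [prod_insert ha, prod_insert ha, sum_insert ha, Complex.mul_im]
    have h1 := ih fun p hp => h p (mem_insert_of_mem hp)
    have h2 := h a (mem_insert_self a P)
    have h3 : |(∏ p ∈ P, w p).re| ≤ ∏ p ∈ P, ‖w p‖ := by
      rw [← norm_prod]
      exact Complex.abs_re_le_norm _
    have h4 : |(w a).re| ≤ ‖w a‖ := Complex.abs_re_le_norm _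
    have h5 : 0 ≤ ∏ p ∈ P, ‖w p‖ := prod_nonneg fun _ _ => norm_nonneg _
    have h6 : 0 ≤ ∑ p ∈ P, 2 * |(w p).im| := sum_nonneg fun _ _ => by positivity
    have h7 : 0 ≤ |(w a).im| := abs_nonneg _
    calc |(w a).re * (∏ p ∈ P, w p).im + (w a).im * (∏ p ∈ P, w p).re| ≤
        |(w a).re * (∏ p ∈ P, w p).im| + |(w a).im * (∏ p ∈ P, w p).re| := abs_add_le _ _
      _ = |(w a).re| * |(∏ p ∈ P, w p).im| + |(w a).im| * |(∏ p ∈ P, w p).re| := by
        rw [abs_mul, abs_mul]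
      _ ≤ ‖w a‖ * ((∏ p ∈ P, ‖w p‖) * ∑ p ∈ P, 2 * |(w p).im|) +
          |(w a).im| * ∏ p ∈ P, ‖w p‖ :=
        add_le_add (mul_le_mul h4 h1 (abs_nonneg _) (norm_nonneg _))
          (mul_le_mul_of_nonneg_left h3 h7)
      _ ≤ _ := by
        have h8 : |(w a).im| * ∏ p ∈ P, ‖w p‖ ≤ (2 * ‖w a‖) * (|(w a).im| * ∏ p ∈ P, ‖w p‖) := by
          have h9 : 0 ≤ |(w a).im| * ∏ p ∈ P, ‖w p‖ := mul_nonneg h7 h5
          nlinarith
        calc _ ≤ ‖w a‖ * ((∏ p ∈ P, ‖w p‖) * ∑ p ∈ P, 2 * |(w p).im|) +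
            (2 * ‖w a‖) * (|(w a).im| * ∏ p ∈ P, ‖w p‖) := by linarith
          _ = _ := by ring

/-- the weight of a set -/
noncomputable def wt (A : Finset ℕ) : ℝ := ∏ p ∈ A, (1 / (p : ℝ))

/-- the sum of the weights -/
noncomputable def NN (P : Finset ℕ) : ℝ := ∑ A ∈ P.powerset, wt A

lemma NN_eq (P : Finset ℕ) : NN P = ∏ p ∈ P, (1 + 1 / (p : ℝ)) := by
  unfold NN wt
  rw [prod_one_add]

/-- the generating function -/
noncomputable def Ph (P : Finset ℕ) (g : ℕ → ℤ) (θ : ℝ) : ℂ := ∏ p ∈ P, zf (1 / (p : ℝ)) (g p) θ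

lemma Ph_eq (P : Finset ℕ) (g : ℕ → ℤ) (θ : ℝ) :
    Ph P g θ = ∑ A ∈ P.powerset, (wt A : ℂ) *
      Complex.exp ((((∑ p ∈ A, g p : ℤ) * θ : ℝ) : ℂ) * Complex.I) := by
  unfold Ph zf
  rw [prod_one_add]
  refine sum_congr rfl fun A _ => ?_
  rw [prod_mul_distrib, ← Complex.exp_sum]
  unfold wt
  push_cast
  congr 2
  rw [sum_mul, sum_mul]

lemma Ph_norm_le (P : Finset ℕ) (g : ℕ → ℤ) (θ : ℝ) (hP : ∀ p ∈ P, 2 ≤ p)
    (hg : ∀ p, g p = 0 ∨ g p = 1 ∨ g p = -1) (L : ℝ)
    (hL : L ≤ ∑ p ∈ P with g p ≠ 0, 1 / (p : ℝ)) :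
    ‖Ph P g θ‖ ≤ NN P * Real.exp (-(L * (1 - Real.cos θ) / 4)) := by
  unfold Ph
  rw [norm_prod, NN_eq]
  have hc : 0 ≤ 1 - Real.cos θ := by linarith [Real.cos_le_one θ]
  calc ∏ p ∈ P, ‖zf (1 / (p : ℝ)) (g p) θ‖ ≤ ∏ p ∈ P, ((1 + 1 / (p : ℝ)) *
        Real.exp (-((if g p = 0 then 0 else 1 / (p : ℝ)) * (1 - Real.cos θ) / 4))) := by
        refine prod_le_prod (fun _ _ => norm_nonneg _) fun p hp => ?_
        have h2 : (2 : ℝ) ≤ p := by exact_mod_cast hP p hp
        exact zf_le _ _ _ (by positivity) (one_div_le_one_div_of_le (by norm_num) h2) (hg p)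
    _ = (∏ p ∈ P, (1 + 1 / (p : ℝ))) *
        Real.exp (∑ p ∈ P, -((if g p = 0 then 0 else 1 / (p : ℝ)) * (1 - Real.cos θ) / 4)) := by
        rw [prod_mul_distrib, Real.exp_sum]
    _ ≤ _ := by
        refine mul_le_mul_of_nonneg_left (Real.exp_le_exp.2 ?_)
          (prod_nonneg fun p _ => by positivity)
        rw [sum_neg_distrib, neg_le_neg_iff, ← sum_div, ← sum_mul]
        have : ∑ p ∈ P, (if g p = 0 then 0 else 1 / (p : ℝ)) =
            ∑ p ∈ P with g p ≠ 0, 1 / (p : ℝ) := by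
          rw [sum_filter]
          refine sum_congr rfl fun p _ => ?_
          by_cases h : g p = 0 <;> simp [h]
        rw [this]
        have := mul_le_mul_of_nonneg_right hL hc
        linarith

lemma Ph_im_le (P : Finset ℕ) (g : ℕ → ℤ) (θ a : ℝ) (hP : ∀ p ∈ P, 2 ≤ p)
    (hg : ∀ p, g p = 0 ∨ g p = 1 ∨ g p = -1) (s B : ℝ)
    (hs : |∑ p ∈ P, (g p : ℝ) / p| ≤ s) (hB : ∑ p ∈ P, (1 / (p : ℝ)) ^ 2 ≤ B) :
    |(Complex.exp (((a * θ : ℝ) : ℂ) * Complex.I) * Ph P g θ).im| ≤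
      (|a| + s + 4 * B) * |θ| * ‖Ph P g θ‖ := by
  set S : ℝ := ∑ p ∈ P, (g p : ℝ) / p with hS
  set W : ℂ := ∏ p ∈ P, wf (1 / (p : ℝ)) (g p) θ with hW
  have e1 : Ph P g θ = W * Complex.exp (((S * Real.sin θ : ℝ) : ℂ) * Complex.I) := by
    rw [hW]
    unfold wf
    rw [prod_mul_distrib, ← Complex.exp_sum, mul_assoc, ← Complex.exp_add, ← sum_mul, ← add_mul,
      ← Complex.ofReal_sum, ← Complex.ofReal_add]
    have : (∑ p ∈ P, -((g p : ℝ) * (1 / (p : ℝ)) * Real.sin θ)) + S * Real.sin θ = 0 := by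
      rw [sum_neg_distrib, ← sum_mul, hS]
      simp only [mul_one_div]
      ring
    rw [this]
    simp [Ph]
  have e2 : ‖Ph P g θ‖ = ∏ p ∈ P, ‖wf (1 / (p : ℝ)) (g p) θ‖ := by
    unfold Ph
    rw [norm_prod]
    exact prod_congr rfl fun p _ => (norm_wf _ _ _).symm
  have e2' : ‖W‖ = ‖Ph P g θ‖ := by rw [e2, hW, norm_prod]
  have hx : ∀ p ∈ P, 0 ≤ 1 / (p : ℝ) ∧ 1 / (p : ℝ) ≤ 1 / 2 := fun p hp => by
    have h2 : (2 : ℝ) ≤ p := by exact_mod_cast hP p hp
    exact ⟨by positivity, one_div_le_one_div_of_le (by norm_num) h2⟩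
  have h1 : |W.im| ≤ ‖Ph P g θ‖ * (4 * B * |θ|) := by
    rw [e2, hW]
    refine (im_prod P _ fun p hp => ?_).trans ?_
    · rw [norm_wf]
      exact zf_ge _ _ _ (hx p hp).1 (hx p hp).2
    · refine mul_le_mul_of_nonneg_left ?_ (prod_nonneg fun _ _ => norm_nonneg _)
      calc ∑ p ∈ P, 2 * |(wf (1 / (p : ℝ)) (g p) θ).im| ≤
          ∑ p ∈ P, 2 * (2 * (1 / (p : ℝ)) ^ 2 * |θ|) :=
            sum_le_sum fun p hp => mul_le_mul_of_nonneg_left
              (wf_im _ _ _ (hx p hp).1 (hx p hp).2 (hg p)) (by norm_num)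
        _ = 4 * (∑ p ∈ P, (1 / (p : ℝ)) ^ 2) * |θ| := by
            rw [mul_sum, sum_mul]
            exact sum_congr rfl fun _ _ => by ring
        _ ≤ _ := by
            refine mul_le_mul_of_nonneg_right ?_ (abs_nonneg _)
            linarith
  have e3 : Complex.exp (((a * θ : ℝ) : ℂ) * Complex.I) * Ph P g θ =
      Complex.exp (((a * θ + S * Real.sin θ : ℝ) : ℂ) * Complex.I) * W := by
    rw [e1, Complex.ofReal_add, add_mul, Complex.exp_add]
    ring
  rw [e3, exp_I]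
  set α : ℝ := a * θ + S * Real.sin θ with hα
  have e4 : (((Real.cos α : ℂ) + (Real.sin α : ℂ) * Complex.I) * W).im =
      Real.cos α * W.im + Real.sin α * W.re := by
    generalize Real.cos α = c
    generalize Real.sin α = d
    simp
  rw [e4]
  have h2 : |Real.cos α| ≤ 1 := Real.abs_cos_le_one α
  have h3 : |Real.sin α| ≤ (|a| + s) * |θ| := by
    refine (Real.abs_sin_le_abs).trans ?_
    rw [hα]
    refine (abs_add_le _ _).trans ?_
    rw [abs_mul, abs_mul, add_mul]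
    have : |Real.sin θ| ≤ |θ| := Real.abs_sin_le_abs
    have h4 : |S| * |Real.sin θ| ≤ s * |θ| :=
      mul_le_mul hs this (abs_nonneg _) ((abs_nonneg _).trans hs)
    linarith
  have h5 : |W.re| ≤ ‖Ph P g θ‖ := by
    rw [← e2']
    exact Complex.abs_re_le_norm _
  calc |Real.cos α * W.im + Real.sin α * W.re| ≤ |Real.cos α * W.im| + |Real.sin α * W.re| :=
        abs_add_le _ _
    _ = |Real.cos α| * |W.im| + |Real.sin α| * |W.re| := by rw [abs_mul, abs_mul]
    _ ≤ 1 * (‖Ph P g θ‖ * (4 * B * |θ|)) + (|a| + s) * |θ| * ‖Ph P g θ‖ :=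
        add_le_add (mul_le_mul h2 h1 (abs_nonneg _) (by norm_num))
          (mul_le_mul h3 h5 (abs_nonneg _) ((abs_nonneg _).trans h3))
    _ = _ := by ring

lemma sum_KK (P : Finset ℕ) (g : ℕ → ℤ) (c : ℤ) (θ : ℝ) :
    ∑ A ∈ P.powerset, wt A * KK ((∑ p ∈ A, g p) - c) θ =
      (Complex.exp ((((1 / 2 - c : ℝ) * θ : ℝ) : ℂ) * Complex.I) * Ph P g θ).im /
        Real.sin (θ / 2) := by
  rw [Ph_eq, mul_sum, Complex.im_sum, sum_div]
  refine sum_congr rfl fun A _ => ?_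
  unfold KK
  rw [mul_left_comm, ← Complex.exp_add, ← add_mul, ← Complex.ofReal_add, exp_I]
  have e : (1 / 2 - (c : ℝ)) * θ + (∑ p ∈ A, g p : ℤ) * θ =
      ((((∑ p ∈ A, g p) - c : ℤ) : ℝ) + 1 / 2) * θ := by
    push_cast
    ring
  rw [e]
  generalize Real.cos (((((∑ p ∈ A, g p) - c : ℤ) : ℝ) + 1 / 2) * θ) = x
  generalize Real.sin (((((∑ p ∈ A, g p) - c : ℤ) : ℝ) + 1 / 2) * θ) = y
  have : ((wt A : ℂ) * ((x : ℂ) + (y : ℂ) * Complex.I)).im = wt A * y := by simp
  rw [this]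
  ring

/-- the sign of a random signed sum is balanced -/
theorem sgn_bound (P : Finset ℕ) (g : ℕ → ℤ) (hP : ∀ p ∈ P, 2 ≤ p)
    (hg : ∀ p, g p = 0 ∨ g p = 1 ∨ g p = -1) (c : ℤ) (L s B : ℝ) (hL0 : 0 < L)
    (hL : L ≤ ∑ p ∈ P with g p ≠ 0, 1 / (p : ℝ))
    (hs : |∑ p ∈ P, (g p : ℝ) / p| ≤ s) (hB : ∑ p ∈ P, (1 / (p : ℝ)) ^ 2 ≤ B) :
    |∑ A ∈ P.powerset, wt A * sgz c (∑ p ∈ A, g p)| ≤
      NN P * (4 * (|(c : ℝ)| + 1 + s + 4 * B) / √L) := by
  have hpi := Real.pi_pos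
  set C : ℝ := |(c : ℝ)| + 1 + s + 4 * B with hC
  have hs0 : 0 ≤ s := (abs_nonneg _).trans hs
  have hB0 : 0 ≤ B := (sum_nonneg fun _ _ => by positivity).trans hB
  have hC0 : 0 < C := by
    have := abs_nonneg (c : ℝ)
    linarith
  have hN0 : 0 ≤ NN P := by
    rw [NN_eq]
    exact prod_nonneg fun p _ => by positivity
  set b : ℝ := L / (2 * Real.pi ^ 2) with hb
  have hb0 : 0 < b := by positivity
  have e0 : ∀ k : ℤ, sgz c k = sgz 0 (k - c) := fun k => by
    unfold sgz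
    by_cases h : c ≤ k
    · rw [if_pos h, if_pos (by omega)]
    · rw [if_neg h, if_neg (by omega)]
  have e1 : ∑ A ∈ P.powerset, wt A * sgz c (∑ p ∈ A, g p) = (1 / (2 * Real.pi)) *
      ∫ θ in (-Real.pi)..Real.pi, ∑ A ∈ P.powerset, wt A * KK ((∑ p ∈ A, g p) - c) θ := by
    rw [intervalIntegral.integral_finsetSum]
    · rw [mul_sum]
      refine sum_congr rfl fun A _ => ?_
      rw [intervalIntegral.integral_const_mul, (KK_int _).2, e0]
      field_simp
    · intro A _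
      exact (KK_int _).1.const_mul _
  have h2 : ‖∫ θ in (-Real.pi)..Real.pi, ∑ A ∈ P.powerset, wt A * KK ((∑ p ∈ A, g p) - c) θ‖ ≤
      ∫ θ in (-Real.pi)..Real.pi, (NN P * C * Real.pi) * Real.exp (-b * θ ^ 2) := by
    refine intervalIntegral.norm_integral_le_of_norm_le (by linarith) ?_ ?_
    · filter_upwards [ae_ne] with θ hθ hθ2
      have hne := hθ (by rw [Set.uIoc_of_le (by linarith)]; exact hθ2)
      rw [sum_KK, Real.norm_eq_abs, abs_div]
      have h3 := Ph_im_le P g θ (1 / 2 - c) hP hg s B hs hB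
      have h4 := Ph_norm_le P g θ hP hg L hL
      have hθa : |θ| ≤ Real.pi := abs_le.2 ⟨by linarith [hθ2.1], hθ2.2⟩
      have h5 : 2 / Real.pi * |θ / 2| ≤ |Real.sin (θ / 2)| := by
        apply Real.mul_abs_le_abs_sin
        rw [abs_div]
        norm_num
        linarith
      have h6 : |θ| ≤ Real.pi * |Real.sin (θ / 2)| := by
        rw [abs_div] at h5
        have h7 : 2 / Real.pi * (|θ| / |(2 : ℝ)|) = |θ| / Real.pi := by
          rw [abs_of_pos (by norm_num : (0 : ℝ) < 2)]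
          field_simp
        rw [h7, div_le_iff₀ hpi] at h5
        linarith
      have h7 := Real.cos_le_one_sub_mul_cos_sq hθa
      have h8 : -(L * (1 - Real.cos θ) / 4) ≤ -b * θ ^ 2 := by
        have : L * (2 / Real.pi ^ 2 * θ ^ 2) ≤ L * (1 - Real.cos θ) :=
          mul_le_mul_of_nonneg_left (by linarith) hL0.le
        have e : b * θ ^ 2 = L * (2 / Real.pi ^ 2 * θ ^ 2) / 4 := by
          rw [hb]
          field_simp
          ring
        rw [neg_mul, e]
        linarith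
      have h9 : ‖Ph P g θ‖ ≤ NN P * Real.exp (-b * θ ^ 2) :=
        h4.trans (mul_le_mul_of_nonneg_left (Real.exp_le_exp.2 h8) hN0)
      have h10 : |(1 / 2 - (c : ℝ))| + s + 4 * B ≤ C := by
        have := abs_sub (1 / 2 : ℝ) c
        have h11 : |(1 / 2 : ℝ)| = 1 / 2 := abs_of_pos (by norm_num)
        rw [hC]
        linarith
      have hsin : 0 < |Real.sin (θ / 2)| := abs_pos.2 hne
      rw [div_le_iff₀ hsin]
      refine h3.trans ?_
      calc (|(1 / 2 - (c : ℝ))| + s + 4 * B) * |θ| * ‖Ph P g θ‖ ≤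
          C * (Real.pi * |Real.sin (θ / 2)|) * (NN P * Real.exp (-b * θ ^ 2)) := by
            refine mul_le_mul (mul_le_mul h10 h6 (abs_nonneg _) hC0.le) h9 (norm_nonneg _) ?_
            positivity
        _ = _ := by ring
    · apply Continuous.intervalIntegrable
      fun_prop
  have h3 : ∫ θ in (-Real.pi)..Real.pi, (NN P * C * Real.pi) * Real.exp (-b * θ ^ 2) ≤
      (NN P * C * Real.pi) * √(Real.pi / b) := by
    rw [intervalIntegral.integral_const_mul]
    refine mul_le_mul_of_nonneg_left ?_ (by positivity)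
    rw [intervalIntegral.integral_of_le (by linarith), ← integral_gaussian]
    exact setIntegral_le_integral (integrable_exp_neg_mul_sq hb0)
      (Filter.Eventually.of_forall fun x => (Real.exp_pos _).le)
  have h4 : √(Real.pi / b) ≤ 8 / √L := by
    have : Real.pi / b = (2 * Real.pi ^ 3) / L := by
      rw [hb]
      field_simp
    rw [this, Real.sqrt_div (by positivity)]
    refine div_le_div_of_nonneg_right ?_ (Real.sqrt_nonneg _)
    rw [show (8 : ℝ) = √(8 ^ 2) by rw [Real.sqrt_sq (by norm_num)]]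
    apply Real.sqrt_le_sqrt
    have h5 := Real.pi_lt_d2
    have h6 : Real.pi ^ 2 ≤ 3.15 ^ 2 := pow_le_pow_left₀ hpi.le h5.le 2
    nlinarith
  rw [e1, abs_mul, abs_of_pos (by positivity), ← Real.norm_eq_abs]
  calc 1 / (2 * Real.pi) * ‖∫ θ in (-Real.pi)..Real.pi,
        ∑ A ∈ P.powerset, wt A * KK ((∑ p ∈ A, g p) - c) θ‖ ≤
      1 / (2 * Real.pi) * ((NN P * C * Real.pi) * (8 / √L)) := by
        refine mul_le_mul_of_nonneg_left ?_ (by positivity)
        refine (h2.trans h3).trans (mul_le_mul_of_nonneg_left h4 (by positivity))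
    _ = NN P * (4 * C / √L) := by
        field_simp
        ring

end Pool.Agent.N186.ND
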