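import Pool.Agent.N186.ND.Bal
import Pool.Agent.H970R2.X.Apl

/-!
# The distribution of `kd` (project ND of helper973, part KD)

From the prime number theorem in the progressions modulo `56` the sum over the sets with product at
most `X` is reduced to the logarithmic sum.
-/

set_option autoImplicit false

open scoped Classical

open Finset Filter Topology

namespace Pool.Agent.N186.ND

open Pool.Agent.N973.ND (Pr m7 ty kd SS SA Cl)

lemma th_mod (h : ℕ → ℝ) (hm : ∀ p, h (p % 56) = h p) :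
    Tendsto (fun n : ℕ => (∑ p ∈ PP n, h p * Real.log p) / (n : ℝ)) atTop
      (𝓝 ((∑ a ∈ Rd, h a) / 24)) := by
  have e1 : ∀ n : ℕ, ∑ p ∈ PP n, h p * Real.log p = ∑ a ∈ Rd, h a *
      Pool.Agent.H970R2.X.xapl_th 56 a (n : ℝ) := by
    intro n
    unfold PP Pool.Agent.H970R2.X.xapl_th
    rw [Nat.floor_natCast]
    rw [← sum_fiberwise_of_maps_to (s := (range (n + 1)).filter Pr) (t := Rd)
      (g := fun p => p % 56) (fun p hp => Pr_mod p (mem_filter.1 hp).2)]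
    refine sum_congr rfl fun a ha => ?_
    rw [mul_sum]
    have ha56 : a % 56 = a := Nat.mod_eq_of_lt (mem_range.1 (mem_filter.1 ha).1)
    refine sum_congr ?_ ?_
    · ext p
      simp only [mem_filter, mem_range, mem_Ioc]
      constructor
      · rintro ⟨⟨h1, h2⟩, h3⟩
        exact ⟨⟨h2.1.pos, by omega⟩, h2.1, by rw [h3, ha56]⟩
      · rintro ⟨h1, h2, h3⟩
        exact ⟨⟨by omega, Rd_Pr p a ha h2 h3⟩, by rw [h3, ha56]⟩
    · intro p hp
      rw [mem_filter] at hp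
      have : h p = h a := by
        rw [← hm p, hp.2.2, ha56]
      rw [this]
  have e2 : (∑ a ∈ Rd, h a) / 24 = ∑ a ∈ Rd, h a * ((Nat.totient 56 : ℕ) : ℝ)⁻¹ := by
    have : Nat.totient 56 = 24 := by decide +kernel
    rw [this, ← sum_mul]
    norm_num
    ring
  rw [e2]
  have h3 : Tendsto (fun n : ℕ => ∑ a ∈ Rd, h a * (Pool.Agent.H970R2.X.xapl_th 56 a (n : ℝ) / (n : ℝ)))
      atTop (𝓝 (∑ a ∈ Rd, h a * ((Nat.totient 56 : ℕ) : ℝ)⁻¹)) := by
    refine tendsto_finsetSum _ fun a ha => Tendsto.const_mul _ ?_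
    exact (Pool.Agent.H970R2.X.xapl_th_tendsto 56 a (by norm_num) (mem_filter.1 ha).2).comp
      tendsto_natCast_atTop_atTop
  refine h3.congr fun n => ?_
  rw [e1, sum_div]
  refine sum_congr rfl fun a _ => by ring

lemma lin_of_tendsto (f : ℕ → ℝ) (w : ℝ) (h : Tendsto (fun n : ℕ => f n / (n : ℝ)) atTop (𝓝 w))
    (ε : ℝ) (hε : 0 < ε) : ∃ C : ℝ, 0 ≤ C ∧ ∀ n : ℕ, |f n - w * n| ≤ ε * n + C := by
  obtain ⟨N, hN⟩ := Metric.tendsto_atTop.1 h ε hε
  refine ⟨∑ n ∈ range (N + 1), |f n - w * n|, sum_nonneg fun _ _ => abs_nonneg _, fun n => ?_⟩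
  by_cases hn : n < N + 1
  · have h1 := single_le_sum (f := fun n : ℕ => |f n - w * n|) (fun _ _ => abs_nonneg _)
      (mem_range.2 hn)
    have : 0 ≤ ε * n := by positivity
    linarith
  · have h1 := hN n (by omega)
    rw [Real.dist_eq] at h1
    have hn0 : (0 : ℝ) < n := by
      have : 0 < n := by omega
      exact_mod_cast this
    have e : f n / n - w = (f n - w * n) / n := by field_simp
    rw [e, abs_div, abs_of_pos hn0, div_lt_iff₀ hn0] at h1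
    have : 0 ≤ ∑ n ∈ range (N + 1), |f n - w * n| := sum_nonneg fun _ _ => abs_nonneg _
    linarith

/-- the average over the types -/
noncomputable def Fb (F : ℤ → ℝ) (k : ℤ) : ℝ := 1 / 2 * F k + 1 / 4 * F (k + 1) + 1 / 4 * F (k - 1)

lemma th_ind (j : ℤ) (w : ℝ) (hw : (∑ a ∈ Rd, if gg a = j then (1 : ℝ) else 0) / 24 = w) (ε : ℝ)
    (hε : 0 < ε) : ∃ C : ℝ, 0 ≤ C ∧ ∀ n : ℕ,
      |(∑ p ∈ PP n, (if gg p = j then (1 : ℝ) else 0) * Real.log p) - w * n| ≤ ε * n + C := by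
  have h := th_mod (fun p => if gg p = j then (1 : ℝ) else 0) (fun p => by rw [gg_mod])
  rw [hw] at h
  exact lin_of_tendsto _ w h ε hε

/-- the prime number theorem for the types -/
lemma th_F (ε : ℝ) (hε : 0 < ε) : ∃ C : ℝ, 0 ≤ C ∧ ∀ (F : ℤ → ℝ), (∀ k, |F k| ≤ 1) →
    ∀ (k : ℤ) (n : ℕ), |(∑ p ∈ PP n, Real.log p * F (k + gg p)) - n * Fb F k| ≤ ε * n + C := by
  obtain ⟨C0, hC00, hC0⟩ := th_ind 0 (1 / 2) (by
    have : ∑ a ∈ Rd, (if gg a = 0 then 1 else 0) = 12 := by decide +kernel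
    have h2 : ∑ a ∈ Rd, (if gg a = 0 then (1 : ℝ) else 0) = 12 := by exact_mod_cast this
    rw [h2]; norm_num) (ε / 3) (by positivity)
  obtain ⟨C1, hC10, hC1⟩ := th_ind 1 (1 / 4) (by
    have : ∑ a ∈ Rd, (if gg a = 1 then 1 else 0) = 6 := by decide +kernel
    have h2 : ∑ a ∈ Rd, (if gg a = 1 then (1 : ℝ) else 0) = 6 := by exact_mod_cast this
    rw [h2]; norm_num) (ε / 3) (by positivity)
  obtain ⟨C2, hC20, hC2⟩ := th_ind (-1) (1 / 4) (by
    have : ∑ a ∈ Rd, (if gg a = -1 then 1 else 0) = 6 := by decide +kernel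
    have h2 : ∑ a ∈ Rd, (if gg a = -1 then (1 : ℝ) else 0) = 6 := by exact_mod_cast this
    rw [h2]; norm_num) (ε / 3) (by positivity)
  refine ⟨C0 + C1 + C2, by positivity, fun F hF k n => ?_⟩
  have e : (∑ p ∈ PP n, Real.log p * F (k + gg p)) =
      F k * (∑ p ∈ PP n, (if gg p = 0 then (1 : ℝ) else 0) * Real.log p) +
      F (k + 1) * (∑ p ∈ PP n, (if gg p = 1 then (1 : ℝ) else 0) * Real.log p) +
      F (k - 1) * (∑ p ∈ PP n, (if gg p = -1 then (1 : ℝ) else 0) * Real.log p) := by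
    rw [mul_sum, mul_sum, mul_sum, ← sum_add_distrib, ← sum_add_distrib]
    refine sum_congr rfl fun p _ => ?_
    rcases gg_cases p with h | h | h <;> rw [h] <;> norm_num <;> ring_nf
  rw [e]
  have e2 : F k * (∑ p ∈ PP n, (if gg p = 0 then (1 : ℝ) else 0) * Real.log p) +
      F (k + 1) * (∑ p ∈ PP n, (if gg p = 1 then (1 : ℝ) else 0) * Real.log p) +
      F (k - 1) * (∑ p ∈ PP n, (if gg p = -1 then (1 : ℝ) else 0) * Real.log p) - n * Fb F k =
      F k * ((∑ p ∈ PP n, (if gg p = 0 then (1 : ℝ) else 0) * Real.log p) - 1 / 2 * n) +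
      F (k + 1) * ((∑ p ∈ PP n, (if gg p = 1 then (1 : ℝ) else 0) * Real.log p) - 1 / 4 * n) +
      F (k - 1) * ((∑ p ∈ PP n, (if gg p = -1 then (1 : ℝ) else 0) * Real.log p) - 1 / 4 * n) := by
    unfold Fb
    ring
  rw [e2]
  have key : ∀ (x y C : ℝ), |x| ≤ 1 → |y| ≤ ε / 3 * n + C → |x * y| ≤ ε / 3 * n + C := by
    intro x y C hx hy
    rw [abs_mul]
    have := abs_nonneg y
    have := abs_nonneg x
    nlinarith
  have t1 := abs_add_le (F k * ((∑ p ∈ PP n, (if gg p = 0 then (1 : ℝ) else 0) * Real.log p) -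
    1 / 2 * n) + F (k + 1) * ((∑ p ∈ PP n, (if gg p = 1 then (1 : ℝ) else 0) * Real.log p) -
    1 / 4 * n)) (F (k - 1) * ((∑ p ∈ PP n, (if gg p = -1 then (1 : ℝ) else 0) * Real.log p) -
    1 / 4 * n))
  have t2 := abs_add_le (F k * ((∑ p ∈ PP n, (if gg p = 0 then (1 : ℝ) else 0) * Real.log p) -
    1 / 2 * n)) (F (k + 1) * ((∑ p ∈ PP n, (if gg p = 1 then (1 : ℝ) else 0) * Real.log p) -
    1 / 4 * n))
  have k0 := key _ _ _ (hF k) (hC0 n)
  have k1 := key _ _ _ (hF (k + 1)) (hC1 n)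
  have k2 := key _ _ _ (hF (k - 1)) (hC2 n)
  linarith

/-- the sets of primes with product at most `X` -/
noncomputable def SX (X : ℕ) : Finset (Finset ℕ) :=
  (PP X).powerset.filter fun S => ∏ p ∈ S, p ≤ X

lemma SX_prime {X : ℕ} {S : Finset ℕ} (h : S ∈ SX X) : ∀ p ∈ S, p.Prime := fun p hp =>
  PP_prime X p (mem_powerset.1 (mem_filter.1 h).1 hp)

lemma SX_pos {X : ℕ} {S : Finset ℕ} (h : S ∈ SX X) : 0 < ∏ p ∈ S, p :=
  prod_pos fun p hp => (SX_prime h p hp).pos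

lemma mem_SX {X : ℕ} {S : Finset ℕ} : S ∈ SX X ↔ (∀ p ∈ S, Pr p) ∧ ∏ p ∈ S, p ≤ X := by
  unfold SX PP
  rw [mem_filter, mem_powerset]
  constructor
  · rintro ⟨h1, h2⟩
    exact ⟨fun p hp => (mem_filter.1 (h1 hp)).2, h2⟩
  · rintro ⟨h1, h2⟩
    refine ⟨fun p hp => ?_, h2⟩
    rw [mem_filter, mem_range]
    refine ⟨?_, h1 p hp⟩
    have : p ≤ ∏ p ∈ S, p := Nat.le_of_dvd (prod_pos fun q hq => (h1 q hq).1.pos)
      (dvd_prod_of_mem _ hp)
    omega

/-- sums over the sets are sums over the integers -/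
lemma sum_SX_le (X : ℕ) (f : ℕ → ℝ) (hf : ∀ m, 0 ≤ f m) :
    ∑ S ∈ SX X, f (∏ p ∈ S, p) ≤ ∑ m ∈ Icc 1 X, f m := by
  rw [← sum_image (f := f) (g := fun S : Finset ℕ => ∏ p ∈ S, p)]
  · refine sum_le_sum_of_subset_of_nonneg ?_ fun m _ _ => hf m
    intro m hm
    rw [mem_image] at hm
    obtain ⟨S, hS, rfl⟩ := hm
    rw [mem_Icc]
    exact ⟨SX_pos hS, (mem_filter.1 hS).2⟩
  · intro S hS T hT hST
    exact prod_inj (SX_prime (mem_coe.1 hS)) (SX_prime (mem_coe.1 hT)) hST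

lemma card_SX (X : ℕ) : ((SX X).card : ℝ) ≤ X := by
  have h := sum_SX_le X (fun _ => 1) (fun _ => zero_le_one)
  simpa using h

lemma sum_wt_SX (X : ℕ) : ∑ S ∈ SX X, wt S ≤ 1 + Real.log X := by
  have h := sum_SX_le X (fun m => 1 / (m : ℝ)) (fun m => by positivity)
  rw [sum_congr rfl fun S _ => (wt_eq S)]
  refine h.trans ?_
  have h2 := harmonic_le_one_add_log X
  rw [harmonic_eq_sum_Icc] at h2
  push_cast at h2
  simpa [one_div] using h2

lemma sum_log_ratio (X : ℕ) (hX : 1 ≤ X) :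
    ∑ m ∈ Icc 1 X, (Real.log X - Real.log m) ≤ X := by
  have h1 : ∑ m ∈ Icc 1 X, Real.log m = Real.log (X.factorial : ℝ) := by
    have e : Icc 1 X = Ico 1 (X + 1) := by
      ext m
      simp only [mem_Icc, mem_Ico]
      omega
    rw [← Finset.prod_Ico_id_eq_factorial, ← e]
    push_cast
    rw [Real.log_prod]
    intro m hm
    have := (mem_Icc.1 hm).1
    positivity
  have h2 : (X : ℝ) ^ X / X.factorial ≤ Real.exp X := Real.pow_div_factorial_le_exp _ (by positivity) X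
  have hX0 : (0 : ℝ) < X := by exact_mod_cast hX
  have hf : (0 : ℝ) < X.factorial := by exact_mod_cast X.factorial_pos
  have h3 := Real.log_le_log (by positivity) h2
  rw [Real.log_exp, Real.log_div (by positivity) hf.ne', Real.log_pow] at h3
  rw [sum_sub_distrib, h1, sum_const, Nat.card_Icc, nsmul_eq_mul]
  simp only [Nat.add_sub_cancel]
  linarith

/-- removing a prime -/
lemma swap (X : ℕ) (f : Finset ℕ → ℕ → ℝ) : ∑ S ∈ SX X, ∑ p ∈ S, f (S.erase p) p =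
    ∑ T ∈ SX X, ∑ p ∈ PP (X / ∏ q ∈ T, q) \ T, f T p := by
  rw [sum_sigma', sum_sigma']
  refine sum_bij' (fun x _ => ⟨x.1.erase x.2, x.2⟩) (fun x _ => ⟨insert x.2 x.1, x.2⟩) ?_ ?_ ?_ ?_ ?_
  · rintro ⟨S, p⟩ h
    rw [mem_sigma] at h
    obtain ⟨h1, h2⟩ := h
    simp only at h1 h2
    rw [mem_SX] at h1
    have hpos : 0 < ∏ q ∈ S.erase p, q := prod_pos fun q hq => (h1.1 q (mem_of_mem_erase hq)).1.pos
    have he : p * ∏ q ∈ S.erase p, q = ∏ q ∈ S, q := mul_prod_erase S (fun q => q) h2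
    have hp := h1.1 p h2
    rw [mem_sigma]
    refine ⟨?_, ?_⟩
    · show S.erase p ∈ SX X
      rw [mem_SX]
      refine ⟨fun q hq => h1.1 q (mem_of_mem_erase hq), ?_⟩
      have := hp.1.one_lt
      nlinarith [h1.2]
    · show p ∈ PP (X / ∏ q ∈ S.erase p, q) \ S.erase p
      rw [Finset.mem_sdiff]
      refine ⟨?_, notMem_erase p S⟩
      unfold PP
      rw [mem_filter, mem_range, Nat.lt_succ_iff, Nat.le_div_iff_mul_le hpos, he]
      exact ⟨h1.2, hp⟩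
  · rintro ⟨T, p⟩ h
    rw [mem_sigma] at h
    obtain ⟨h1, h2⟩ := h
    simp only at h1 h2
    rw [Finset.mem_sdiff] at h2
    have hpos := SX_pos h1
    rw [mem_SX] at h1
    unfold PP at h2
    rw [mem_filter, mem_range, Nat.lt_succ_iff, Nat.le_div_iff_mul_le hpos] at h2
    rw [mem_sigma]
    refine ⟨?_, mem_insert_self p T⟩
    show insert p T ∈ SX X
    rw [mem_SX, prod_insert h2.2]
    refine ⟨fun q hq => ?_, h2.1.1⟩
    rw [mem_insert] at hq
    rcases hq with rfl | hq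
    · exact h2.1.2
    · exact h1.1 q hq
  · rintro ⟨S, p⟩ h
    rw [mem_sigma] at h
    show (⟨insert p (S.erase p), p⟩ : Sigma fun _ : Finset ℕ => ℕ) = ⟨S, p⟩
    rw [insert_erase h.2]
  · rintro ⟨T, p⟩ h
    rw [mem_sigma] at h
    have := (Finset.mem_sdiff.1 h.2).2
    show (⟨(insert p T).erase p, p⟩ : Sigma fun _ : Finset ℕ => ℕ) = ⟨T, p⟩
    rw [erase_insert this]
  · rintro ⟨S, p⟩ _
    rfl

/-- the primes already in the set -/
lemma rep : ∃ C : ℝ, 0 ≤ C ∧ ∀ X : ℕ,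
    ∑ T ∈ SX X, ∑ p ∈ PP (X / ∏ q ∈ T, q) ∩ T, Real.log p ≤ C * X := by
  have hsum : Summable fun n : ℕ => 2 * ((n : ℝ) ^ (3 / 2 : ℝ))⁻¹ :=
    (Real.summable_nat_rpow_inv.2 (by norm_num)).mul_left 2
  refine ⟨∑' n : ℕ, 2 * ((n : ℝ) ^ (3 / 2 : ℝ))⁻¹, tsum_nonneg fun n => by positivity, fun X => ?_⟩
  have h1 : ∑ T ∈ SX X, ∑ p ∈ PP (X / ∏ q ∈ T, q) ∩ T, Real.log p ≤
      ∑ T ∈ SX X, ∑ p ∈ PP X, if p ∈ T ∧ p * ∏ q ∈ T, q ≤ X then Real.log p else 0 := by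
    refine sum_le_sum fun T hT => ?_
    rw [← sum_filter]
    refine sum_le_sum_of_subset_of_nonneg ?_ fun p _ _ => Real.log_natCast_nonneg p
    intro p hp
    rw [mem_inter] at hp
    unfold PP at hp ⊢
    rw [mem_filter, mem_range, Nat.lt_succ_iff, Nat.le_div_iff_mul_le (SX_pos hT)] at hp
    rw [mem_filter, mem_filter, mem_range]
    refine ⟨⟨?_, hp.1.2⟩, hp.2, hp.1.1⟩
    have := SX_pos hT
    have h2 := hp.1.1
    have : p ≤ X := by nlinarith
    omega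
  refine h1.trans ?_
  rw [sum_comm]
  have h2 : ∀ p ∈ PP X, ∑ T ∈ SX X, (if p ∈ T ∧ p * ∏ q ∈ T, q ≤ X then Real.log p else 0) ≤
      (2 * ((p : ℝ) ^ (3 / 2 : ℝ))⁻¹) * X := by
    intro p hp
    have hpp := PP_prime X p hp
    have hp0 : (0 : ℝ) < p := by exact_mod_cast hpp.pos
    rw [← sum_filter, sum_const, nsmul_eq_mul]
    have hc : (((SX X).filter fun T => p ∈ T ∧ p * ∏ q ∈ T, q ≤ X).card : ℝ) ≤ X / (p : ℝ) ^ 2 := by
      have h3 : ((SX X).filter fun T => p ∈ T ∧ p * ∏ q ∈ T, q ≤ X).card ≤ (Icc 1 (X / p ^ 2)).card := by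
        refine card_le_card_of_injOn (fun T => ∏ q ∈ T.erase p, q) ?_ ?_
        · intro T hT
          rw [mem_coe, mem_filter] at hT
          obtain ⟨hT1, hT2, hT3⟩ := hT
          show ∏ q ∈ T.erase p, q ∈ Finset.Icc 1 (X / p ^ 2)
          rw [mem_Icc]
          have he : p * ∏ q ∈ T.erase p, q = ∏ q ∈ T, q := mul_prod_erase T (fun q => q) hT2
          have hpos : 0 < ∏ q ∈ T.erase p, q :=
            prod_pos fun q hq => (SX_prime hT1 q (mem_of_mem_erase hq)).pos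
          refine ⟨hpos, ?_⟩
          rw [Nat.le_div_iff_mul_le (pow_pos hpp.pos 2)]
          calc (∏ q ∈ T.erase p, q) * p ^ 2 = p * (p * ∏ q ∈ T.erase p, q) := by ring
            _ = p * ∏ q ∈ T, q := by rw [he]
            _ ≤ X := hT3
        · intro S hS T hT hST
          rw [mem_coe, mem_filter] at hS hT
          have := prod_inj (fun q hq => SX_prime hS.1 q (mem_of_mem_erase hq))
            (fun q hq => SX_prime hT.1 q (mem_of_mem_erase hq)) hST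
          rw [← insert_erase hS.2.1, ← insert_erase hT.2.1, this]
      rw [Nat.card_Icc, Nat.add_sub_cancel] at h3
      calc (((SX X).filter fun T => p ∈ T ∧ p * ∏ q ∈ T, q ≤ X).card : ℝ) ≤ ((X / p ^ 2 : ℕ) : ℝ) := by
            exact_mod_cast h3
        _ ≤ (X : ℝ) / ((p ^ 2 : ℕ) : ℝ) := Nat.cast_div_le
        _ = _ := by push_cast; rfl
    have hlog : Real.log p ≤ (p : ℝ) ^ (1 / 2 : ℝ) / (1 / 2) :=
      Real.log_natCast_le_rpow_div p (by norm_num)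
    have hpw : (p : ℝ) ^ (1 / 2 : ℝ) * ((p : ℝ) ^ (3 / 2 : ℝ)) = (p : ℝ) ^ 2 := by
      rw [← Real.rpow_add hp0, ← Real.rpow_natCast]
      norm_num
    calc (((SX X).filter fun T => p ∈ T ∧ p * ∏ q ∈ T, q ≤ X).card : ℝ) * Real.log p ≤
        (X / (p : ℝ) ^ 2) * ((p : ℝ) ^ (1 / 2 : ℝ) / (1 / 2)) :=
          mul_le_mul hc hlog (Real.log_natCast_nonneg p) (by positivity)
      _ = _ := by
          rw [← hpw]
          field_simp
  calc _ ≤ ∑ p ∈ PP X, (2 * ((p : ℝ) ^ (3 / 2 : ℝ))⁻¹) * X := sum_le_sum h2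
    _ = (∑ p ∈ PP X, (2 * ((p : ℝ) ^ (3 / 2 : ℝ))⁻¹)) * X := by rw [sum_mul]
    _ ≤ _ := mul_le_mul_of_nonneg_right (hsum.sum_le_tsum _ fun n _ => by positivity)
        (Nat.cast_nonneg X)

/-- from the sum over the sets to the logarithmic sum -/
theorem to_log (ε : ℝ) (hε : 0 < ε) : ∃ C : ℝ, 0 ≤ C ∧ ∀ (F : ℤ → ℝ), (∀ k, |F k| ≤ 1) →
    ∀ X : ℕ, 1 ≤ X → |(∑ S ∈ SX X, F (∑ p ∈ S, gg p)) * Real.log X -
      X * ∑ T ∈ SX X, wt T * Fb F (∑ p ∈ T, gg p)| ≤ ε * (X * Real.log X) + C * X := by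
  obtain ⟨C1, hC10, hC1⟩ := th_F ε hε
  obtain ⟨C2, hC20, hC2⟩ := rep
  refine ⟨C1 + C2 + 2 + ε, by positivity, fun F hF X hX => ?_⟩
  have hX0 : (0 : ℝ) < X := by exact_mod_cast hX
  have hFb : ∀ k, |Fb F k| ≤ 1 := by
    intro k
    unfold Fb
    have h1 := hF k
    have h2 := hF (k + 1)
    have h3 := hF (k - 1)
    rw [abs_le] at *
    constructor <;> linarith
  set G : Finset ℕ → ℕ → ℝ := fun T p => Real.log p * F (∑ q ∈ T, gg q + gg p) with hG
  -- the logarithm of the product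
  have e1 : ∑ S ∈ SX X, F (∑ p ∈ S, gg p) * Real.log ((∏ p ∈ S, p : ℕ) : ℝ) =
      ∑ T ∈ SX X, ∑ p ∈ PP (X / ∏ q ∈ T, q) \ T, G T p := by
    rw [← swap]
    refine sum_congr rfl fun S hS => ?_
    have : Real.log ((∏ p ∈ S, p : ℕ) : ℝ) = ∑ p ∈ S, Real.log p := by
      push_cast
      rw [Real.log_prod]
      intro p hp
      exact_mod_cast (SX_prime hS p hp).ne_zero
    rw [this, mul_sum]
    refine sum_congr rfl fun p hp => ?_
    rw [hG]
    simp only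
    rw [sum_erase_add S _ hp, mul_comm]
  have e2 : ∑ T ∈ SX X, ∑ p ∈ PP (X / ∏ q ∈ T, q) \ T, G T p =
      (∑ T ∈ SX X, ∑ p ∈ PP (X / ∏ q ∈ T, q), G T p) -
      ∑ T ∈ SX X, ∑ p ∈ PP (X / ∏ q ∈ T, q) ∩ T, G T p := by
    rw [← sum_sub_distrib]
    refine sum_congr rfl fun T _ => ?_
    rw [eq_sub_iff_add_eq, add_comm]
    exact sum_inter_add_sum_sdiff _ _ _
  -- the errors
  have b1 : |(∑ S ∈ SX X, F (∑ p ∈ S, gg p)) * Real.log X -
      ∑ S ∈ SX X, F (∑ p ∈ S, gg p) * Real.log ((∏ p ∈ S, p : ℕ) : ℝ)| ≤ X := by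
    rw [sum_mul, ← sum_sub_distrib]
    refine (abs_sum_le_sum_abs _ _).trans ?_
    have h1 : ∑ S ∈ SX X, |F (∑ p ∈ S, gg p) * Real.log X -
        F (∑ p ∈ S, gg p) * Real.log ((∏ p ∈ S, p : ℕ) : ℝ)| ≤
        ∑ S ∈ SX X, |Real.log X - Real.log ((∏ p ∈ S, p : ℕ) : ℝ)| := by
      refine sum_le_sum fun S _ => ?_
      rw [← mul_sub, abs_mul]
      have := hF (∑ p ∈ S, gg p)
      have := abs_nonneg (Real.log X - Real.log ((∏ p ∈ S, p : ℕ) : ℝ))
      nlinarith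
    refine h1.trans ((sum_SX_le X (fun m => |Real.log X - Real.log (m : ℝ)|)
      fun m => abs_nonneg _).trans ?_)
    refine le_trans (le_of_eq ?_) (sum_log_ratio X hX)
    refine sum_congr rfl fun m hm => ?_
    rw [mem_Icc] at hm
    have h3 : (0 : ℝ) < m := by exact_mod_cast hm.1
    have h4 : Real.log m ≤ Real.log X := Real.log_le_log h3 (by exact_mod_cast hm.2)
    rw [abs_of_nonneg]
    linarith
  have b2 : |∑ T ∈ SX X, ∑ p ∈ PP (X / ∏ q ∈ T, q) ∩ T, G T p| ≤ C2 * X := by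
    refine ((abs_sum_le_sum_abs _ _).trans (sum_le_sum fun T _ => ?_)).trans (hC2 X)
    refine (abs_sum_le_sum_abs _ _).trans (sum_le_sum fun p _ => ?_)
    rw [hG]
    simp only
    rw [abs_mul, abs_of_nonneg (Real.log_natCast_nonneg p)]
    have := hF (∑ q ∈ T, gg q + gg p)
    have := Real.log_natCast_nonneg p
    nlinarith
  have b3 : |(∑ T ∈ SX X, ∑ p ∈ PP (X / ∏ q ∈ T, q), G T p) -
      X * ∑ T ∈ SX X, wt T * Fb F (∑ p ∈ T, gg p)| ≤ ε * (X * (1 + Real.log X)) + (C1 + 1) * X := by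
    rw [mul_sum, ← sum_sub_distrib]
    have h1 : ∀ T ∈ SX X, |(∑ p ∈ PP (X / ∏ q ∈ T, q), G T p) -
        X * (wt T * Fb F (∑ p ∈ T, gg p))| ≤ ε * X * wt T + (C1 + 1) := by
      intro T hT
      have hpos : (0 : ℝ) < ((∏ q ∈ T, q : ℕ) : ℝ) := by exact_mod_cast SX_pos hT
      set n : ℕ := X / ∏ q ∈ T, q with hn
      have hn1 : (n : ℝ) ≤ X * wt T := by
        rw [wt_eq, hn, mul_one_div]
        exact Nat.cast_div_le
      have hn2 : X * wt T ≤ n + 1 := by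
        rw [wt_eq, mul_one_div, div_le_iff₀ hpos]
        have h2 : X < (n + 1) * ∏ q ∈ T, q := by
          rw [hn, mul_comm]
          exact Nat.lt_mul_div_succ X (SX_pos hT)
        exact_mod_cast h2.le
      have h2 := hC1 F hF (∑ p ∈ T, gg p) n
      have h3 : |(n : ℝ) * Fb F (∑ p ∈ T, gg p) - X * (wt T * Fb F (∑ p ∈ T, gg p))| ≤ 1 := by
        rw [← mul_assoc, ← sub_mul, abs_mul]
        have h4 : |(n : ℝ) - X * wt T| ≤ 1 := by
          rw [abs_le]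
          constructor <;> linarith
        have h5 := hFb (∑ p ∈ T, gg p)
        have h6 := abs_nonneg (Fb F (∑ p ∈ T, gg p))
        have h7 := abs_nonneg ((n : ℝ) - X * wt T)
        nlinarith
      have h4 : ε * n ≤ ε * X * wt T := by
        rw [mul_assoc]
        exact mul_le_mul_of_nonneg_left hn1 hε.le
      calc |(∑ p ∈ PP n, G T p) - X * (wt T * Fb F (∑ p ∈ T, gg p))| =
          |((∑ p ∈ PP n, G T p) - n * Fb F (∑ p ∈ T, gg p)) +
            ((n : ℝ) * Fb F (∑ p ∈ T, gg p) - X * (wt T * Fb F (∑ p ∈ T, gg p)))| := by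
            congr 1
            ring
        _ ≤ (ε * n + C1) + 1 := (abs_add_le _ _).trans (add_le_add h2 h3)
        _ ≤ _ := by linarith
    refine ((abs_sum_le_sum_abs _ _).trans (sum_le_sum h1)).trans ?_
    rw [sum_add_distrib, ← mul_sum, sum_const, nsmul_eq_mul]
    have h5 := mul_le_mul_of_nonneg_left (sum_wt_SX X) (by positivity : 0 ≤ ε * X)
    have h6 := mul_le_mul_of_nonneg_right (card_SX X) (by positivity : 0 ≤ C1 + 1)
    linarith
  rw [e2] at e1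
  rw [e1] at b1
  have t1 := abs_add_le ((∑ S ∈ SX X, F (∑ p ∈ S, gg p)) * Real.log X -
      ((∑ T ∈ SX X, ∑ p ∈ PP (X / ∏ q ∈ T, q), G T p) -
      ∑ T ∈ SX X, ∑ p ∈ PP (X / ∏ q ∈ T, q) ∩ T, G T p))
    (((∑ T ∈ SX X, ∑ p ∈ PP (X / ∏ q ∈ T, q), G T p) -
      X * ∑ T ∈ SX X, wt T * Fb F (∑ p ∈ T, gg p)) -
      ∑ T ∈ SX X, ∑ p ∈ PP (X / ∏ q ∈ T, q) ∩ T, G T p)
  have t2 := abs_sub ((∑ T ∈ SX X, ∑ p ∈ PP (X / ∏ q ∈ T, q), G T p) -
      X * ∑ T ∈ SX X, wt T * Fb F (∑ p ∈ T, gg p))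
      (∑ T ∈ SX X, ∑ p ∈ PP (X / ∏ q ∈ T, q) ∩ T, G T p)
  have e3 : (∑ S ∈ SX X, F (∑ p ∈ S, gg p)) * Real.log X -
      ((∑ T ∈ SX X, ∑ p ∈ PP (X / ∏ q ∈ T, q), G T p) -
      ∑ T ∈ SX X, ∑ p ∈ PP (X / ∏ q ∈ T, q) ∩ T, G T p) +
      (((∑ T ∈ SX X, ∑ p ∈ PP (X / ∏ q ∈ T, q), G T p) -
      X * ∑ T ∈ SX X, wt T * Fb F (∑ p ∈ T, gg p)) -
      ∑ T ∈ SX X, ∑ p ∈ PP (X / ∏ q ∈ T, q) ∩ T, G T p) =
      (∑ S ∈ SX X, F (∑ p ∈ S, gg p)) * Real.log X -
      X * ∑ T ∈ SX X, wt T * Fb F (∑ p ∈ T, gg p) := by ring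
  rw [e3] at t1
  nlinarith

/-! ### The class -/

lemma gg_parity (p : ℕ) (hp : p % 2 = 1) : (p % 4 = 3 ∧ ¬ Even (gg p)) ∨ (p % 4 = 1 ∧ Even (gg p)) := by
  have hm : m7 p ≤ 1 := Pool.Agent.N973.ND.m7_le p
  unfold gg ty
  by_cases h : p % 4 = 3
  · left
    refine ⟨h, ?_⟩
    rw [if_pos h]
    rcases (show m7 p = 0 ∨ m7 p = 1 by omega) with h' | h' <;> rw [h'] <;> decide
  · right
    refine ⟨by omega, ?_⟩
    rw [if_neg h]
    rcases (show m7 p = 0 ∨ m7 p = 1 by omega) with h' | h' <;> rw [h'] <;> decide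

lemma parity (S : Finset ℕ) (hS : ∀ p ∈ S, Pr p) :
    ((∏ p ∈ S, p) % 4 = 3 ∧ ¬ Even (∑ p ∈ S, gg p)) ∨ ((∏ p ∈ S, p) % 4 = 1 ∧ Even (∑ p ∈ S, gg p)) := by
  classical
  induction S using Finset.induction_on with
  | empty => right; simp
  | insert a S ha ih =>
    rw [prod_insert ha, sum_insert ha, Int.even_add]
    have h1 := ih fun p hp => hS p (mem_insert_of_mem hp)
    have hodd : a % 2 = 1 := (hS a (mem_insert_self a S)).1.mod_two_eq_one_iff_ne_two.2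
      (hS a (mem_insert_self a S)).2.1
    have h2 := gg_parity a hodd
    rw [Nat.mul_mod]
    rcases h1 with ⟨h3, h4⟩ | ⟨h3, h4⟩ <;> rcases h2 with ⟨h5, h6⟩ | ⟨h5, h6⟩ <;>
      rw [h3, h5] <;> simp [h4, h6]

/-- the test function -/
noncomputable def FV (V : ℕ) (k : ℤ) : ℝ :=
  if Even k then (if 2 * (V : ℤ) ≤ k then 1 / 2 else -(1 / 2)) else 0

lemma FV_le (V : ℕ) (k : ℤ) : |FV V k| ≤ 1 := by
  unfold FV
  split_ifs <;> norm_num [abs_le]

lemma Fb_FV (V : ℕ) (k : ℤ) : Fb (FV V) k = 1 / 8 * (sgz (2 * V) k + sgz (2 * V - 1) k) := by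
  unfold Fb FV sgz
  rcases Int.even_or_odd k with hk | hk
  · have h1 : ¬ Even (k + 1) := by rw [Int.not_even_iff_odd]; exact hk.add_one
    have h2 : ¬ Even (k - 1) := by rw [Int.not_even_iff_odd]; exact hk.sub_odd odd_one
    rw [if_pos hk, if_neg h1, if_neg h2]
    obtain ⟨l, rfl⟩ := hk
    by_cases h : 2 * (V : ℤ) ≤ l + l
    · rw [if_pos h, if_pos h, if_pos (by omega)]
      norm_num
    · rw [if_neg h, if_neg h, if_neg (by omega)]
      norm_num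
  · have h0 : ¬ Even k := by rw [Int.not_even_iff_odd]; exact hk
    have h1 : Even (k + 1) := hk.add_one
    have h2 : Even (k - 1) := hk.sub_odd odd_one
    rw [if_neg h0, if_pos h1, if_pos h2]
    obtain ⟨l, rfl⟩ := hk
    by_cases h : 2 * (V : ℤ) ≤ 2 * l + 1
    · rw [if_pos (by omega), if_pos (by omega), if_pos h, if_pos (by omega)]
      norm_num
    · by_cases h' : 2 * (V : ℤ) - 1 ≤ 2 * l + 1
      · rw [if_pos (by omega), if_neg (by omega), if_neg h, if_pos h']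
        norm_num
      · rw [if_neg (by omega), if_neg (by omega), if_neg h, if_neg h']
        norm_num

lemma SS_eq (X : ℕ) : SS X = (SX X).filter fun S => Even (∑ p ∈ S, gg p) := by
  ext S
  unfold SS
  rw [mem_filter, mem_powerset, mem_filter, mem_SX]
  unfold Cl
  constructor
  · rintro ⟨_, ⟨h1, h2⟩, h3⟩
    refine ⟨⟨h1, h3⟩, ?_⟩
    rcases parity S h1 with ⟨h4, _⟩ | ⟨_, h4⟩
    · omega
    · exact h4
  · rintro ⟨⟨h1, h2⟩, h3⟩
    refine ⟨fun p hp => ?_, ⟨h1, ?_⟩, h2⟩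
    · have h4 : S ∈ SX X := mem_SX.2 ⟨h1, h2⟩
      have h5 := mem_powerset.1 (mem_filter.1 h4).1 hp
      exact (mem_filter.1 h5).1
    · rcases parity S h1 with ⟨_, h4⟩ | ⟨h4, _⟩
      · exact absurd h3 h4
      · exact h4

lemma diff_eq (V X : ℕ) : (((SS X).filter fun S => 2 * (V : ℤ) ≤ kd S).card : ℝ) -
    (1 / 2) * ((SS X).card : ℝ) = ∑ S ∈ SX X, FV V (∑ p ∈ S, gg p) := by
  rw [SS_eq, card_filter, card_eq_sum_ones]
  push_cast
  rw [mul_sum, ← sum_sub_distrib, sum_filter]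
  refine sum_congr rfl fun S _ => ?_
  unfold FV
  rw [kd_eq]
  split_ifs <;> norm_num

/-- ND-KD: the distribution of `kd`. -/
theorem t_KD : Pool.Agent.N973.ND.S_KD := by
  intro V ε hε
  obtain ⟨C, hC0, hC⟩ := to_log (ε / 4) (by positivity)
  obtain ⟨X1, hX1⟩ := LL_small (2 * V) ε hε
  obtain ⟨X2, hX2⟩ := LL_small (2 * V - 1) ε hε
  have hlog : Tendsto (fun X : ℕ => Real.log (X : ℝ)) atTop atTop :=
    Real.tendsto_log_atTop.comp tendsto_natCast_atTop_atTop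
  obtain ⟨X3, hX3⟩ := eventually_atTop.1 (hlog.eventually_ge_atTop (4 * C / ε + 1))
  refine ⟨max (max X1 X2) (max X3 1), fun X hX => ?_⟩
  have h1 := hX1 X (by omega)
  have h2 := hX2 X (by omega)
  have h3 := hX3 X (by omega)
  have hXpos : 1 ≤ X := by omega
  have hX0 : (0 : ℝ) < X := by exact_mod_cast hXpos
  have hl : 0 < Real.log X := by
    have : 0 ≤ 4 * C / ε := by positivity
    linarith
  rw [diff_eq]
  have h4 := hC (FV V) (FV_le V) X hXpos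
  have e : ∑ T ∈ SX X, wt T * Fb (FV V) (∑ p ∈ T, gg p) =
      1 / 8 * (LL (2 * V) X + LL (2 * V - 1) X) := by
    unfold LL
    rw [← sum_add_distrib, mul_sum]
    refine sum_congr rfl fun T _ => ?_
    rw [Fb_FV]
    ring
  rw [e] at h4
  have h5 : C ≤ ε / 4 * Real.log X := by
    have h6 : 4 * C / ε ≤ Real.log X := by linarith
    rw [div_le_iff₀ hε] at h6
    linarith
  set M : ℝ := ∑ S ∈ SX X, FV V (∑ p ∈ S, gg p) with hM
  have h6 : |M * Real.log X| ≤ (ε * X) * Real.log X := by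
    have t1 := abs_add_le (M * Real.log X - X * (1 / 8 * (LL (2 * V) X + LL (2 * V - 1) X)))
      (X * (1 / 8 * (LL (2 * V) X + LL (2 * V - 1) X)))
    rw [sub_add_cancel] at t1
    have t2 : |(X : ℝ) * (1 / 8 * (LL (2 * V) X + LL (2 * V - 1) X))| ≤
        X * (1 / 4 * (ε * Real.log X)) := by
      rw [abs_mul, abs_of_pos hX0]
      refine mul_le_mul_of_nonneg_left ?_ hX0.le
      rw [abs_mul, abs_of_pos (by norm_num : (0 : ℝ) < 1 / 8)]
      have := abs_add_le (LL (2 * V) X) (LL (2 * V - 1) X)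
      linarith
    have h7 : C * X ≤ (ε / 4 * Real.log X) * X := mul_le_mul_of_nonneg_right h5 hX0.le
    have h8 : 0 ≤ ε * X * Real.log X := by positivity
    nlinarith
  rw [abs_mul, abs_of_pos hl] at h6
  exact le_of_mul_le_mul_right h6 hl

end Pool.Agent.N186.ND
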