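import Pool.Agent.N186.ND.Fou

/-!
# The logarithmic average of the sign over sets of primes with bounded product
-/

set_option autoImplicit false

open Finset

namespace Pool.Agent.N186.ND

lemma wt_eq (A : Finset ℕ) : wt A = 1 / ((∏ p ∈ A, p : ℕ) : ℝ) := by
  unfold wt
  push_cast
  rw [prod_div_distrib, prod_const_one]

lemma wt_nonneg (A : Finset ℕ) : 0 ≤ wt A := prod_nonneg fun _ _ => by positivity

lemma wt_union (A B : Finset ℕ) (h : Disjoint A B) : wt (A ∪ B) = wt A * wt B := by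
  unfold wt
  rw [prod_union h]

lemma NN_nonneg (P : Finset ℕ) : 0 ≤ NN P := sum_nonneg fun _ _ => wt_nonneg _

lemma NN_union (P Q : Finset ℕ) (h : Disjoint P Q) : NN (P ∪ Q) = NN P * NN Q := by
  rw [NN_eq, NN_eq, NN_eq, prod_union h]

/-- sums over the subsets of a disjoint union -/
lemma pow_union (P Q : Finset ℕ) (h : Disjoint P Q) (f : Finset ℕ → ℝ) :
    ∑ S ∈ (P ∪ Q).powerset, f S = ∑ B ∈ Q.powerset, ∑ A ∈ P.powerset, f (A ∪ B) := by
  rw [← sum_product']
  symm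
  refine sum_bij' (fun x _ => x.2 ∪ x.1) (fun S _ => (S ∩ Q, S ∩ P)) ?_ ?_ ?_ ?_ ?_
  · rintro ⟨B, A⟩ hx
    rw [mem_product, mem_powerset, mem_powerset] at hx
    rw [mem_powerset]
    exact union_subset_union hx.2 hx.1
  · intro S _
    rw [mem_product, mem_powerset, mem_powerset]
    exact ⟨inter_subset_right, inter_subset_right⟩
  · rintro ⟨B, A⟩ hx
    rw [mem_product, mem_powerset, mem_powerset] at hx
    have hA : Disjoint A Q := h.mono_left hx.2
    have hB : Disjoint B P := (h.mono_right hx.1).symm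
    ext1
    · show (A ∪ B) ∩ Q = B
      rw [union_inter_distrib_right, disjoint_iff_inter_eq_empty.1 hA, empty_union,
        inter_eq_left.2 hx.1]
    · show (A ∪ B) ∩ P = A
      rw [union_inter_distrib_right, disjoint_iff_inter_eq_empty.1 hB, union_empty,
        inter_eq_left.2 hx.2]
  · intro S hS
    rw [mem_powerset] at hS
    show (S ∩ P) ∪ (S ∩ Q) = S
    rw [← inter_union_distrib_left, inter_eq_left.2 hS]
  · rintro ⟨B, A⟩ _
    rfl

/-- the first moment of an additive function -/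
lemma first_moment (P : Finset ℕ) (h : ℕ → ℝ) (h0 : ∀ p, 0 ≤ h p) :
    ∑ A ∈ P.powerset, wt A * ∑ p ∈ A, h p ≤ NN P * ∑ p ∈ P, h p / p := by
  classical
  induction P using Finset.induction_on with
  | empty => simp
  | insert a P ha ih =>
    rw [sum_powerset_insert ha, sum_insert ha]
    have e : ∀ A ∈ P.powerset, wt (insert a A) * ∑ p ∈ insert a A, h p =
        (1 / (a : ℝ)) * (wt A * ∑ p ∈ A, h p) + (1 / (a : ℝ)) * h a * wt A := by
      intro A hA
      have haA : a ∉ A := fun h' => ha (mem_powerset.1 hA h')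
      rw [sum_insert haA]
      unfold wt
      rw [prod_insert haA]
      ring
    rw [sum_congr rfl e, sum_add_distrib, ← mul_sum, ← mul_sum]
    have e2 : NN (insert a P) = (1 + 1 / (a : ℝ)) * NN P := by
      rw [NN_eq, NN_eq, prod_insert ha]
    rw [e2]
    have e3 : ∑ A ∈ P.powerset, wt A = NN P := rfl
    rw [e3]
    have h1 : 0 ≤ 1 / (a : ℝ) := by positivity
    have h2 := NN_nonneg P
    have h3 : 0 ≤ 1 / (a : ℝ) * h a := mul_nonneg h1 (h0 a)
    have h4 := mul_le_mul_of_nonneg_left ih (by linarith : 0 ≤ 1 + 1 / (a : ℝ))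
    have h5 : 0 ≤ 1 / (a : ℝ) * (1 / (a : ℝ) * h a * NN P) := by positivity
    have e4 : h a / a = 1 / (a : ℝ) * h a := by ring
    rw [e4]
    nlinarith

/-- the product determines the set of primes -/
lemma prod_inj {S T : Finset ℕ} (hS : ∀ p ∈ S, p.Prime) (hT : ∀ p ∈ T, p.Prime)
    (h : ∏ p ∈ S, p = ∏ p ∈ T, p) : S = T := by
  have key : ∀ S : Finset ℕ, (∀ p ∈ S, p.Prime) → (∏ p ∈ S, p).primeFactors = S := fun S hS =>
    Nat.primeFactors_prod hS
  rw [← key S hS, ← key T hT, h]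

/-- the sets with product in a window -/
lemma window (P : Finset ℕ) (hP : ∀ p ∈ P, p.Prime) (X : ℕ) (Z : ℝ) (hX : 1 ≤ X) (hZ : 1 ≤ Z) :
    ∑ S ∈ P.powerset.filter (fun S => ∏ p ∈ S, p ≤ X ∧ (X : ℝ) < ((∏ p ∈ S, p : ℕ) : ℝ) * Z), wt S ≤
      1 + Real.log Z := by
  set a : ℕ := ⌊(X : ℝ) / Z⌋₊ with ha
  have hZ0 : 0 < Z := by linarith
  have haX : a ≤ X := by
    rw [ha]
    apply Nat.floor_le_of_le
    rw [div_le_iff₀ hZ0]
    have : (0 : ℝ) ≤ X := by positivity
    nlinarith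
  have h1 : ∑ S ∈ P.powerset.filter (fun S => ∏ p ∈ S, p ≤ X ∧ (X : ℝ) < ((∏ p ∈ S, p : ℕ) : ℝ) * Z),
      wt S ≤ ∑ m ∈ Ioc a X, 1 / (m : ℝ) := by
    rw [sum_congr rfl fun S _ => wt_eq S]
    rw [← sum_image (f := fun m : ℕ => 1 / (m : ℝ)) (g := fun S : Finset ℕ => ∏ p ∈ S, p)]
    · refine sum_le_sum_of_subset_of_nonneg ?_ fun _ _ _ => by positivity
      intro m hm
      rw [mem_image] at hm
      obtain ⟨S, hS, rfl⟩ := hm
      rw [mem_filter] at hS
      rw [mem_Ioc]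
      refine ⟨?_, hS.2.1⟩
      rw [ha, Nat.floor_lt (by positivity), div_lt_iff₀ hZ0]
      exact hS.2.2
    · intro S hS T hT hST
      rw [mem_coe, mem_filter, mem_powerset] at hS hT
      exact prod_inj (fun p hp => hP p (hS.1 hp)) (fun p hp => hP p (hT.1 hp)) hST
  refine h1.trans ?_
  have h2 : ∑ m ∈ Ioc a X, 1 / (m : ℝ) = ((harmonic X : ℚ) : ℝ) - ((harmonic a : ℚ) : ℝ) := by
    rw [harmonic_eq_sum_Icc, harmonic_eq_sum_Icc]
    push_cast
    simp only [one_div]
    rw [eq_sub_iff_add_eq', ← sum_union]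
    · refine sum_congr ?_ fun m _ => rfl
      ext m
      simp only [mem_union, mem_Icc, mem_Ioc]
      omega
    · rw [disjoint_left]
      intro m h h'
      simp only [mem_Icc, mem_Ioc] at h h'
      omega
  rw [h2]
  have h3 := harmonic_le_one_add_log X
  have h4 := log_add_one_le_harmonic a
  have h5 : (X : ℝ) / Z < ((a + 1 : ℕ) : ℝ) := by
    push_cast
    exact Nat.lt_floor_add_one _
  have hX0 : (0 : ℝ) < X := by exact_mod_cast hX
  have h6 : Real.log X - Real.log Z ≤ Real.log ((a + 1 : ℕ) : ℝ) := by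
    rw [← Real.log_div hX0.ne' hZ0.ne']
    exact Real.log_le_log (by positivity) h5.le
  linarith

lemma sgz_abs (c k : ℤ) : |sgz c k| = 1 := by
  unfold sgz
  split_ifs <;> simp

lemma sgz_shift (c k l : ℤ) : sgz c (k + l) = sgz (c - l) k := by
  unfold sgz
  by_cases h : c ≤ k + l
  · rw [if_pos h, if_pos (by omega)]
  · rw [if_neg h, if_neg (by omega)]

lemma markov (P : Finset ℕ) (hP : ∀ p ∈ P, p.Prime) (Z E : ℝ) (hZ : 1 < Z)
    (hE : ∑ p ∈ P, Real.log p / p ≤ E) :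
    ∑ A ∈ P.powerset.filter (fun A => Z < ((∏ p ∈ A, p : ℕ) : ℝ)), wt A ≤ NN P * (E / Real.log Z) := by
  have hlZ : 0 < Real.log Z := Real.log_pos hZ
  have hl0 : ∀ p : ℕ, 0 ≤ Real.log (p : ℝ) := fun p => Real.log_natCast_nonneg p
  have h1 := first_moment P (fun p => Real.log p) hl0
  have h2 : ∑ A ∈ P.powerset.filter (fun A => Z < ((∏ p ∈ A, p : ℕ) : ℝ)), wt A ≤
      ∑ A ∈ P.powerset, wt A * (∑ p ∈ A, Real.log p) / Real.log Z := by
    rw [sum_filter]
    refine sum_le_sum fun A hA => ?_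
    have hnn : 0 ≤ wt A * (∑ p ∈ A, Real.log p) / Real.log Z :=
      div_nonneg (mul_nonneg (wt_nonneg A) (sum_nonneg fun p _ => hl0 p)) hlZ.le
    split_ifs with h
    · have e : Real.log (((∏ p ∈ A, p : ℕ) : ℝ)) = ∑ p ∈ A, Real.log p := by
        push_cast
        rw [Real.log_prod]
        intro p hp
        exact_mod_cast (hP p (mem_powerset.1 hA hp)).ne_zero
      have h3 : Real.log Z ≤ ∑ p ∈ A, Real.log p := by
        rw [← e]
        exact Real.log_le_log (by linarith) h.le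
      rw [le_div_iff₀ hlZ]
      exact mul_le_mul_of_nonneg_left h3 (wt_nonneg A)
    · exact hnn
  refine h2.trans ?_
  rw [← sum_div, mul_div_assoc']
  refine div_le_div_of_nonneg_right (h1.trans ?_) hlZ.le
  exact mul_le_mul_of_nonneg_left hE (NN_nonneg P)

/-- the main inequality -/
theorem main_ineq (P Q : Finset ℕ) (hPQ : Disjoint P Q) (hp : ∀ p ∈ P ∪ Q, p.Prime) (g : ℕ → ℤ)
    (hg : ∀ p, g p = 0 ∨ g p = 1 ∨ g p = -1) (c : ℤ) (X : ℕ) (hX : 1 ≤ X) (Z : ℝ) (hZ : 1 < Z)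
    (L s B₀ E D : ℝ) (hL0 : 0 < L) (hL : L ≤ ∑ p ∈ P with g p ≠ 0, 1 / (p : ℝ))
    (hs : |∑ p ∈ P, (g p : ℝ) / p| ≤ s) (hB : ∑ p ∈ P, (1 / (p : ℝ)) ^ 2 ≤ B₀)
    (hE : ∑ p ∈ P, Real.log p / p ≤ E) (hD : ∑ q ∈ Q, 1 / (q : ℝ) ≤ D) :
    |∑ S ∈ (P ∪ Q).powerset.filter (fun S => ∏ p ∈ S, p ≤ X), wt S * sgz c (∑ p ∈ S, g p)| ≤
      1 + Real.log Z + NN (P ∪ Q) * (4 * (|(c : ℝ)| + 1 + s + 4 * B₀ + D) / √L + E / Real.log Z) := by
  have hlZ : 0 < Real.log Z := Real.log_pos hZ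
  have hPp : ∀ p ∈ P, p.Prime := fun p h => hp p (mem_union_left Q h)
  have hP2 : ∀ p ∈ P, 2 ≤ p := fun p h => (hPp p h).two_le
  set K : ℝ := |(c : ℝ)| + 1 + s + 4 * B₀ with hK
  set W : Finset ℕ → ℝ := fun S =>
    if ∏ p ∈ S, p ≤ X ∧ (X : ℝ) < ((∏ p ∈ S, p : ℕ) : ℝ) * Z then wt S else 0 with hW
  have hW0 : ∀ S, 0 ≤ W S := fun S => by
    rw [hW]
    simp only
    split_ifs
    · exact wt_nonneg S
    · exact le_rfl
  have hsq : 0 < √L := Real.sqrt_pos.2 hL0
  have hNP := NN_nonneg P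
  have hE0 : 0 ≤ E := (sum_nonneg fun p _ => div_nonneg (Real.log_natCast_nonneg p)
    (Nat.cast_nonneg p)).trans hE
  -- the inner sums
  have inner : ∀ B ∈ Q.powerset,
      |∑ A ∈ P.powerset, if ∏ p ∈ A ∪ B, p ≤ X then wt (A ∪ B) * sgz c (∑ p ∈ A ∪ B, g p) else 0| ≤
      (∑ A ∈ P.powerset, W (A ∪ B)) +
        wt B * (NN P * (4 * (K + B.card) / √L + E / Real.log Z)) := by
    intro B hBQ
    rw [mem_powerset] at hBQ
    have hdis : ∀ A ∈ P.powerset, Disjoint A B := fun A hA =>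
      (hPQ.mono_left (mem_powerset.1 hA)).mono_right hBQ
    have hWs : 0 ≤ ∑ A ∈ P.powerset, W (A ∪ B) := sum_nonneg fun A _ => hW0 _
    have hrest : 0 ≤ wt B * (NN P * (4 * (K + B.card) / √L + E / Real.log Z)) := by
      have : 0 ≤ K := by
        have h1 := abs_nonneg (c : ℝ)
        have h2 : 0 ≤ s := (abs_nonneg _).trans hs
        have h3 : 0 ≤ B₀ := (sum_nonneg fun _ _ => by positivity).trans hB
        rw [hK]
        linarith
      have := wt_nonneg B
      positivity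
    by_cases hgood : ((∏ p ∈ B, p : ℕ) : ℝ) * Z ≤ X
    · -- the good case
      have e1 : ∑ A ∈ P.powerset,
          (if ∏ p ∈ A ∪ B, p ≤ X then wt (A ∪ B) * sgz c (∑ p ∈ A ∪ B, g p) else 0) =
          wt B * ((∑ A ∈ P.powerset, wt A * sgz (c - ∑ p ∈ B, g p) (∑ p ∈ A, g p)) -
          ∑ A ∈ P.powerset, if ∏ p ∈ A ∪ B, p ≤ X then 0 else
            wt A * sgz (c - ∑ p ∈ B, g p) (∑ p ∈ A, g p)) := by
        rw [← sum_sub_distrib, mul_sum]
        refine sum_congr rfl fun A hA => ?_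
        rw [wt_union A B (hdis A hA), sum_union (hdis A hA), sgz_shift]
        split_ifs
        · ring
        · ring
      rw [e1, abs_mul, abs_of_nonneg (wt_nonneg B)]
      have b1 := sgn_bound P g hP2 hg (c - ∑ p ∈ B, g p) L s B₀ hL0 hL hs hB
      have b2 : |∑ A ∈ P.powerset, if ∏ p ∈ A ∪ B, p ≤ X then 0 else
            wt A * sgz (c - ∑ p ∈ B, g p) (∑ p ∈ A, g p)| ≤ NN P * (E / Real.log Z) := by
        refine (abs_sum_le_sum_abs _ _).trans (le_trans ?_ (markov P hPp Z E hZ hE))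
        rw [sum_filter]
        refine sum_le_sum fun A hA => ?_
        by_cases h : ∏ p ∈ A ∪ B, p ≤ X
        · rw [if_pos h, abs_zero]
          split_ifs
          · exact wt_nonneg A
          · exact le_rfl
        · rw [if_neg h, abs_mul, sgz_abs, mul_one, abs_of_nonneg (wt_nonneg A), if_pos]
          rw [prod_union (hdis A hA)] at h
          push Not at h
          have hBpos : (0 : ℝ) < ((∏ p ∈ B, p : ℕ) : ℝ) := by
            have : 0 < ∏ p ∈ B, p := prod_pos fun p hpB =>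
              (hp p (mem_union_right P (hBQ hpB))).pos
            exact_mod_cast this
          have h2 : (X : ℝ) < ((∏ p ∈ A, p : ℕ) : ℝ) * ((∏ p ∈ B, p : ℕ) : ℝ) := by
            exact_mod_cast h
          have h3 : ((∏ p ∈ B, p : ℕ) : ℝ) * Z < ((∏ p ∈ B, p : ℕ) : ℝ) * ((∏ p ∈ A, p : ℕ) : ℝ) := by
            rw [mul_comm ((∏ p ∈ B, p : ℕ) : ℝ) ((∏ p ∈ A, p : ℕ) : ℝ)]
            linarith
          exact lt_of_mul_lt_mul_left h3 hBpos.le
      have b3 : |((c - ∑ p ∈ B, g p : ℤ) : ℝ)| ≤ |(c : ℝ)| + B.card := by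
        push_cast
        refine (abs_sub _ _).trans ?_
        gcongr
        refine (abs_sum_le_sum_abs _ _).trans ?_
        rw [card_eq_sum_ones]
        push_cast
        refine sum_le_sum fun p _ => ?_
        rcases hg p with h | h | h <;> rw [h] <;> norm_num
      have b4 : 4 * (|((c - ∑ p ∈ B, g p : ℤ) : ℝ)| + 1 + s + 4 * B₀) / √L ≤ 4 * (K + B.card) / √L := by
        refine div_le_div_of_nonneg_right ?_ hsq.le
        rw [hK]
        linarith
      have b5 := mul_le_mul_of_nonneg_left b4 hNP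
      calc wt B * |(∑ A ∈ P.powerset, wt A * sgz (c - ∑ p ∈ B, g p) (∑ p ∈ A, g p)) -
            ∑ A ∈ P.powerset, if ∏ p ∈ A ∪ B, p ≤ X then 0 else
              wt A * sgz (c - ∑ p ∈ B, g p) (∑ p ∈ A, g p)| ≤
          wt B * (NN P * (4 * (K + B.card) / √L) + NN P * (E / Real.log Z)) := by
            refine mul_le_mul_of_nonneg_left ?_ (wt_nonneg B)
            refine (abs_sub _ _).trans ?_
            linarith
        _ = wt B * (NN P * (4 * (K + B.card) / √L + E / Real.log Z)) := by ring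
        _ ≤ _ := by linarith
    · -- the bad case
      push Not at hgood
      refine le_trans ?_ (le_add_of_nonneg_right hrest)
      refine (abs_sum_le_sum_abs _ _).trans (sum_le_sum fun A hA => ?_)
      by_cases h : ∏ p ∈ A ∪ B, p ≤ X
      · rw [if_pos h, abs_mul, sgz_abs, mul_one, abs_of_nonneg (wt_nonneg _), hW]
        simp only
        rw [if_pos]
        refine ⟨h, hgood.trans_le ?_⟩
        rw [prod_union (hdis A hA)]
        have : 1 ≤ ∏ p ∈ A, p := Nat.one_le_iff_ne_zero.2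
          (prod_ne_zero_iff.2 fun p hpA => (hPp p (mem_powerset.1 hA hpA)).ne_zero)
        have h1 : (1 : ℝ) ≤ ((∏ p ∈ A, p : ℕ) : ℝ) := by exact_mod_cast this
        have h2 : (0 : ℝ) ≤ ((∏ p ∈ B, p : ℕ) : ℝ) := by positivity
        rw [Nat.cast_mul]
        refine mul_le_mul_of_nonneg_right ?_ (by linarith)
        nlinarith
      · rw [if_neg h, abs_zero]
        exact hW0 _
  have e2 : ∑ S ∈ (P ∪ Q).powerset.filter (fun S => ∏ p ∈ S, p ≤ X), wt S * sgz c (∑ p ∈ S, g p) =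
      ∑ B ∈ Q.powerset, ∑ A ∈ P.powerset,
        if ∏ p ∈ A ∪ B, p ≤ X then wt (A ∪ B) * sgz c (∑ p ∈ A ∪ B, g p) else 0 := by
    rw [sum_filter, pow_union P Q hPQ]
  rw [e2]
  have hwin : ∑ B ∈ Q.powerset, ∑ A ∈ P.powerset, W (A ∪ B) ≤ 1 + Real.log Z := by
    rw [← pow_union P Q hPQ W, hW]
    simp only
    rw [← sum_filter]
    exact window (P ∪ Q) hp X Z hX hZ.le
  have hcard : ∑ B ∈ Q.powerset, wt B * (B.card : ℝ) ≤ NN Q * D := by
    have h1 := first_moment Q (fun _ => 1) (fun _ => zero_le_one)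
    have e : ∀ B ∈ Q.powerset, wt B * ∑ p ∈ B, (1 : ℝ) = wt B * (B.card : ℝ) := fun B _ => by simp
    rw [sum_congr rfl e] at h1
    exact h1.trans (mul_le_mul_of_nonneg_left hD (NN_nonneg Q))
  calc |∑ B ∈ Q.powerset, ∑ A ∈ P.powerset,
        if ∏ p ∈ A ∪ B, p ≤ X then wt (A ∪ B) * sgz c (∑ p ∈ A ∪ B, g p) else 0| ≤
      ∑ B ∈ Q.powerset, ((∑ A ∈ P.powerset, W (A ∪ B)) +
        wt B * (NN P * (4 * (K + B.card) / √L + E / Real.log Z))) :=
        (abs_sum_le_sum_abs _ _).trans (sum_le_sum inner)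
    _ = (∑ B ∈ Q.powerset, ∑ A ∈ P.powerset, W (A ∪ B)) +
        (NN P * (4 * K / √L + E / Real.log Z)) * NN Q +
        NN P * (4 / √L) * ∑ B ∈ Q.powerset, wt B * (B.card : ℝ) := by
        rw [sum_add_distrib, add_assoc]
        congr 1
        unfold NN
        rw [mul_sum, mul_sum, ← sum_add_distrib]
        refine sum_congr rfl fun B _ => ?_
        ring
    _ ≤ (1 + Real.log Z) + (NN P * (4 * K / √L + E / Real.log Z)) * NN Q +
        NN P * (4 / √L) * (NN Q * D) := by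
        gcongr
    _ = _ := by
        rw [NN_union P Q hPQ]
        ring

end Pool.Agent.N186.ND
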